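import Mathlib

/-!
Coverage and `k`-edge-connectivity of the distance graph: the general reduction.
-/

open Metric Set

namespace Pool.Agent.R231.KC

/-- The Euclidean plane. -/
abbrev Pl := EuclideanSpace ℝ (Fin 2)

/-- closed discs of radius `r` around the points of `P` cover the plane -/
def Covers (r : ℝ) (P : Set Pl) : Prop := ∀ x : Pl, ∃ p ∈ P, dist x p ≤ r

/-- The graph `G_c(P)`. -/
def distGraph (c r : ℝ) (P : Set Pl) : SimpleGraph P where
  Adj p q := p ≠ q ∧ dist (p : Pl) (q : Pl) < c * r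
  symm := ⟨fun p q h => ⟨h.1.symm, by rw [dist_comm]; exact h.2⟩⟩
  loopless := ⟨fun _ h => h.1 rfl⟩

/-- connected, and stays connected after deleting any set of fewer than `k` edges -/
def KEdgeConnected {V : Type*} (k : ℕ) (G : SimpleGraph V) : Prop :=
  ∀ s : Set (Sym2 V), s.encard < k → (G.deleteEdges s).Connected

/-- the set of the constants `c > 0` that force `k`-edge-connectivity -/
def good (r : ℝ) (k : ℕ) : Set ℝ :=
  {c | 0 < c ∧ ∀ P : Set Pl, Covers r P → KEdgeConnected k (distGraph c r P)}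

/-- the disc of radius `R` is covered by the concentric unit disc and `m` further unit discs -/
def Ring (m : ℕ) (R : ℝ) : Prop :=
  ∃ p : Fin m → Pl, closedBall (0 : Pl) R ⊆ closedBall 0 1 ∪ ⋃ i, closedBall (p i) 1

/-- the largest radius of a disc covered by the concentric unit disc and `m` further ones -/
noncomputable def rho (m : ℕ) : ℝ := sSup {R | Ring m R}

lemma ring_one (m : ℕ) : Ring m 1 := ⟨fun _ => 0, subset_union_left⟩

lemma ring_mono {m : ℕ} {R R' : ℝ} (h : R' ≤ R) (hR : Ring m R) : Ring m R' := by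
  obtain ⟨p, hp⟩ := hR
  exact ⟨p, (closedBall_subset_closedBall h).trans hp⟩

/-- area bound -/
lemma ring_bound {m : ℕ} {R : ℝ} (hR : Ring m R) : R ≤ Real.sqrt (m + 1) := by
  by_cases h0 : R ≤ 0
  · exact h0.trans (Real.sqrt_nonneg _)
  push Not at h0
  obtain ⟨p, hp⟩ := hR
  have h1 := MeasureTheory.measure_mono (μ := MeasureTheory.volume) hp
  have h2 : MeasureTheory.volume (closedBall (0 : Pl) 1 ∪ ⋃ i, closedBall (p i) 1) ≤
      (m + 1) * MeasureTheory.volume (ball (0 : Pl) 1) := by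
    refine (MeasureTheory.measure_union_le _ _).trans ?_
    have h3 : MeasureTheory.volume (⋃ i, closedBall (p i) 1) ≤
        m * MeasureTheory.volume (ball (0 : Pl) 1) := by
      refine (MeasureTheory.measure_iUnion_fintype_le _ _).trans ?_
      have : ∀ i, MeasureTheory.volume (closedBall (p i) (1 : ℝ)) =
          MeasureTheory.volume (ball (0 : Pl) 1) := by
        intro i
        rw [MeasureTheory.Measure.addHaar_closedBall _ _ zero_le_one]
        simp
      simp only [this]
      simp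
    have h4 : MeasureTheory.volume (closedBall (0 : Pl) (1 : ℝ)) =
          MeasureTheory.volume (ball (0 : Pl) 1) := by
      rw [MeasureTheory.Measure.addHaar_closedBall _ _ zero_le_one]
      simp
    rw [h4, add_mul, one_mul, add_comm]
    gcongr
  rw [MeasureTheory.Measure.addHaar_closedBall _ _ h0.le] at h1
  have hb : MeasureTheory.volume (ball (0 : Pl) 1) ≠ 0 :=
    (measure_ball_pos _ _ one_pos).ne'
  have hb' : MeasureTheory.volume (ball (0 : Pl) 1) ≠ ⊤ := MeasureTheory.measure_ball_lt_top.ne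
  have h5 := h1.trans h2
  rw [ENNReal.mul_le_mul_iff_left hb hb'] at h5
  have h6 : Module.finrank ℝ Pl = 2 := by simp
  rw [h6] at h5
  have h7 : R ^ 2 ≤ m + 1 := by
    have h8 : ((m : ENNReal) + 1) = ENNReal.ofReal ((m : ℝ) + 1) := by
      rw [ENNReal.ofReal_add (by positivity) zero_le_one]
      simp
    rw [h8] at h5
    exact (ENNReal.ofReal_le_ofReal_iff (by positivity)).1 h5
  exact Real.le_sqrt_of_sq_le h7

lemma bddAbove_ring (m : ℕ) : BddAbove {R | Ring m R} :=
  ⟨Real.sqrt (m + 1), fun _ h => ring_bound h⟩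

lemma one_le_rho (m : ℕ) : 1 ≤ rho m := le_csSup (bddAbove_ring m) (ring_one m)

lemma rho_le (m : ℕ) : rho m ≤ Real.sqrt (m + 1) :=
  csSup_le ⟨1, ring_one m⟩ (fun _ h => ring_bound h)

/-- The supremum is attained. -/
lemma ring_rho (m : ℕ) : Ring m (rho m) := by
  classical
  set ρ := rho m with hρ
  have h1ρ : 1 ≤ ρ := one_le_rho m
  -- discs outside a big disc are useless
  set K : Set (Fin m → Pl) := Set.pi univ (fun _ => closedBall (0 : Pl) (ρ + 1)) with hK
  have hKc : IsCompact K := isCompact_univ_pi (fun _ => isCompact_closedBall _ _)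
  set F : ℕ → Set (Fin m → Pl) := fun n => {p ∈ K | closedBall (0 : Pl) (ρ - 1 / (n + 1)) ⊆
    closedBall 0 1 ∪ ⋃ i, closedBall (p i) 1} with hF
  have hFne : ∀ n, (F n).Nonempty := by
    intro n
    have hlt : ρ - 1 / ((n : ℝ) + 1) < ρ := by
      have : (0 : ℝ) < 1 / ((n : ℝ) + 1) := by positivity
      linarith
    obtain ⟨R, hR, hlt'⟩ := exists_lt_of_lt_csSup (⟨1, ring_one m⟩ : {R | Ring m R}.Nonempty)
      (show ρ - 1 / ((n : ℝ) + 1) < sSup {R | Ring m R} from hlt)
    obtain ⟨p, hp⟩ := ring_mono hlt'.le hR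
    refine ⟨fun i => if p i ∈ closedBall (0 : Pl) (ρ + 1) then p i else 0, ?_, ?_⟩
    · rw [hK, Set.mem_univ_pi]
      intro i
      by_cases h : p i ∈ closedBall (0 : Pl) (ρ + 1)
      · simp only [h, if_true]
      · simp only [h, if_false]
        rw [mem_closedBall, dist_self]; linarith
    · intro x hx
      rcases hp hx with h | h
      · exact Or.inl h
      · right
        obtain ⟨i, hi⟩ := mem_iUnion.1 h
        rw [mem_iUnion]
        refine ⟨i, ?_⟩
        have : p i ∈ closedBall (0 : Pl) (ρ + 1) := by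
          rw [mem_closedBall] at hi hx ⊢
          have := dist_triangle (p i) x 0
          rw [dist_comm (p i) x] at this
          linarith
        simp only [this, if_true]
        exact hi
  have hFanti : ∀ n, F (n + 1) ⊆ F n := by
    intro n p hp
    refine ⟨hp.1, (closedBall_subset_closedBall ?_).trans hp.2⟩
    have : (1 : ℝ) / ((n + 1 : ℕ) + 1) ≤ 1 / ((n : ℝ) + 1) := by
      push_cast
      apply one_div_le_one_div_of_le (by positivity)
      linarith
    linarith
  have hFcl : ∀ n, IsClosed (F n) := by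
    intro n
    have h1 : F n = K ∩ ⋂ x ∈ closedBall (0 : Pl) (ρ - 1 / (n + 1)),
        ({p : Fin m → Pl | x ∈ closedBall (0 : Pl) 1} ∪
          ⋃ i, {p : Fin m → Pl | dist x (p i) ≤ 1}) := by
      ext p
      simp only [hF, mem_ofPred_eq, Set.mem_inter_iff, mem_iInter]
      apply and_congr_right
      intro _
      constructor
      · intro h x hx
        rcases h hx with h' | h'
        · left; exact h'
        · right
          obtain ⟨i, hi⟩ := mem_iUnion.1 h'
          exact mem_iUnion.2 ⟨i, hi⟩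
      · intro h x hx
        rcases h x hx with h' | h'
        · left; exact h'
        · right
          obtain ⟨i, hi⟩ := mem_iUnion.1 h'
          exact mem_iUnion.2 ⟨i, hi⟩
    rw [h1]
    apply hKc.isClosed.inter
    apply isClosed_biInter
    intro x _
    apply IsClosed.union
    · by_cases hx : x ∈ closedBall (0 : Pl) 1
      · simp only [hx, ofPred_true]; exact isClosed_univ
      · simp only [hx, ofPred_false]; exact isClosed_empty
    · apply isClosed_iUnion_of_finite
      intro i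
      exact isClosed_le (by fun_prop) continuous_const
  have hF0 : IsCompact (F 0) := hKc.of_isClosed_subset (hFcl 0) (fun p hp => hp.1)
  obtain ⟨p, hp⟩ := IsCompact.nonempty_iInter_of_sequence_nonempty_isCompact_isClosed F hFanti
    hFne hF0 hFcl
  rw [mem_iInter] at hp
  refine ⟨p, ?_⟩
  have hclosed : IsClosed (closedBall (0 : Pl) 1 ∪ ⋃ i, closedBall (p i) 1) :=
    isClosed_closedBall.union (isClosed_iUnion_of_finite (fun i => isClosed_closedBall))
  have hball : ball (0 : Pl) ρ ⊆ closedBall (0 : Pl) 1 ∪ ⋃ i, closedBall (p i) 1 := by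
    intro x hx
    rw [mem_ball] at hx
    obtain ⟨n, hn⟩ := exists_nat_one_div_lt (sub_pos.2 hx)
    apply (hp n).2
    rw [mem_closedBall]
    linarith
  rw [← closure_ball (0 : Pl) (by linarith : ρ ≠ 0)]
  exact closure_minimal hball hclosed

/-- The complement of a disc is preconnected. -/
lemma preconn_compl (M : ℝ) (hM : 0 ≤ M) : IsPreconnected {x : Pl | M < ‖x‖} := by
  have hrank : 1 < Module.rank ℝ Pl := by
    rw [← Module.finrank_eq_rank]
    have : Module.finrank ℝ Pl = 2 := by simp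
    rw [this]; norm_num
  have h1 : IsPreconnected ((sphere (0 : Pl) 1) ×ˢ Ioi M) :=
    (isPreconnected_sphere hrank 0 1).prod isPreconnected_Ioi
  have h2 : (fun q : Pl × ℝ => q.2 • q.1) '' ((sphere (0 : Pl) 1) ×ˢ Ioi M) =
      {x : Pl | M < ‖x‖} := by
    ext x
    constructor
    · rintro ⟨⟨u, t⟩, ⟨hu, ht⟩, rfl⟩
      simp only [mem_sphere_iff_norm, sub_zero, mem_Ioi] at hu ht
      simp only [mem_ofPred_eq, norm_smul, hu, mul_one, Real.norm_eq_abs]
      exact ht.trans_le (le_abs_self _)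
    · intro hx
      simp only [mem_ofPred_eq] at hx
      have hx0 : ‖x‖ ≠ 0 := by linarith
      refine ⟨(‖x‖⁻¹ • x, ‖x‖), ⟨?_, hx⟩, ?_⟩
      · simp only [mem_sphere_iff_norm, sub_zero, norm_smul, norm_inv, norm_norm]
        exact inv_mul_cancel₀ hx0
      · simp only [smul_smul]
        rw [mul_inv_cancel₀ hx0, one_smul]
  rw [← h2]
  apply h1.image
  fun_prop

/-- Finitely many short cross pairs force one side to be bounded. -/
lemma bounded_side {r c : ℝ} (hr : 0 < r) (hc : 2 < c) {P A B : Set Pl} (hP : Covers r P)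
    (hAB : P ⊆ A ∪ B)
    (hfin : {q : Pl × Pl | q.1 ∈ A ∧ q.2 ∈ B ∧ dist q.1 q.2 < c * r}.Finite) :
    Bornology.IsBounded A ∨ Bornology.IsBounded B := by
  by_cases hA : A = ∅
  · left; rw [hA]; exact Bornology.isBounded_empty
  by_cases hB : B = ∅
  · right; rw [hB]; exact Bornology.isBounded_empty
  have hA' : A.Nonempty := nonempty_iff_ne_empty.2 hA
  have hB' : B.Nonempty := nonempty_iff_ne_empty.2 hB
  obtain ⟨M, hM⟩ : ∃ M : ℝ, ∀ q ∈ {q : Pl × Pl | q.1 ∈ A ∧ q.2 ∈ B ∧ dist q.1 q.2 < c * r},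
      ‖q.1‖ ≤ M := by
    obtain ⟨M, hM⟩ := (hfin.image (fun q => ‖q.1‖)).bddAbove
    exact ⟨M, fun q hq => hM (mem_image_of_mem _ hq)⟩
  set ε := (c - 2) * r / 2 with hε
  have hε0 : 0 < ε := by
    have : 0 < c - 2 := by linarith
    positivity
  set M' := max M 0 + r + ε with hM'
  have hM'0 : 0 ≤ M' := by
    have : 0 ≤ max M 0 := le_max_right _ _
    linarith
  set UA := {x : Pl | infDist x A ≤ r} with hUA
  set UB := {x : Pl | infDist x B ≤ r} with hUB
  have hUAc : IsClosed UA := isClosed_le (continuous_infDist_pt A) continuous_const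
  have hUBc : IsClosed UB := isClosed_le (continuous_infDist_pt B) continuous_const
  have hcov : {x : Pl | M' < ‖x‖} ⊆ UA ∪ UB := by
    intro x _
    obtain ⟨p, hp, hd⟩ := hP x
    rcases hAB hp with h | h
    · left; exact (infDist_le_dist_of_mem h).trans hd
    · right; exact (infDist_le_dist_of_mem h).trans hd
  have hdis : ¬ ({x : Pl | M' < ‖x‖} ∩ (UA ∩ UB)).Nonempty := by
    rintro ⟨x, hx, hxA, hxB⟩
    simp only [hUA, hUB, mem_ofPred_eq] at hx hxA hxB
    obtain ⟨a, ha, hxa⟩ := (infDist_lt_iff hA').1 (show infDist x A < r + ε by linarith)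
    obtain ⟨b, hb, hxb⟩ := (infDist_lt_iff hB').1 (show infDist x B < r + ε by linarith)
    have h1 : dist a b < c * r := by
      have := dist_triangle a x b
      rw [dist_comm a x] at this
      have h2 : r + ε + (r + ε) = c * r := by rw [hε]; ring
      linarith
    have h2 := hM (a, b) ⟨ha, hb, h1⟩
    simp only at h2
    have h3 : ‖x‖ ≤ ‖a‖ + dist x a := by
      rw [dist_eq_norm]
      calc ‖x‖ = ‖a + (x - a)‖ := by congr 1; abel
        _ ≤ ‖a‖ + ‖x - a‖ := norm_add_le _ _
    have h4 : M ≤ max M 0 := le_max_left _ _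
    linarith
  have hpre := isPreconnected_closed_iff.1 (preconn_compl M' hM'0) UA UB hUAc hUBc hcov
  by_cases h1 : ({x : Pl | M' < ‖x‖} ∩ UA).Nonempty
  · by_cases h2 : ({x : Pl | M' < ‖x‖} ∩ UB).Nonempty
    · exact absurd (hpre h1 h2) hdis
    · right
      rw [isBounded_iff_forall_norm_le]
      refine ⟨M', fun b hb => ?_⟩
      by_contra hcon
      push Not at hcon
      exact h2 ⟨b, hcon, by
        simp only [hUB, mem_ofPred_eq]
        rw [infDist_zero_of_mem hb]; exact hr.le⟩
  · left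
    rw [isBounded_iff_forall_norm_le]
    refine ⟨M', fun a ha => ?_⟩
    by_contra hcon
    push Not at hcon
    exact h1 ⟨a, hcon, by
      simp only [hUA, mem_ofPred_eq]
      rw [infDist_zero_of_mem ha]; exact hr.le⟩

/-- The key lemma: if `B` is bounded, the differences of the short cross pairs give unit discs
that cover the annulus. -/
lemma diff_cover {r c : ℝ} (hr : 0 < r) {P A B : Set Pl} (hP : Covers r P)
    (hAB : P ⊆ A ∪ B) (hBne : B.Nonempty) (hB : Bornology.IsBounded B) (x : Pl)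
    (hx1 : 1 < ‖x‖) (hx2 : ‖x‖ < c - 1) :
    ∃ a ∈ A, ∃ b ∈ B, dist a b < c * r ∧ dist x (r⁻¹ • (a - b)) ≤ 1 := by
  obtain ⟨N, hN⟩ := isBounded_iff_forall_norm_le.1 hB
  have hx0 : 0 < ‖x‖ := by linarith
  set u := ‖x‖⁻¹ • x with hu
  have hu1 : ‖u‖ = 1 := by
    rw [hu, norm_smul, norm_inv, norm_norm, inv_mul_cancel₀ hx0.ne']
  have hxu : x = ‖x‖ • u := by
    rw [hu, smul_smul, mul_inv_cancel₀ hx0.ne', one_smul]
  set f : Pl → ℝ := fun b => inner ℝ b u with hf
  have hbdd : BddAbove (f '' B) := by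
    refine ⟨N, ?_⟩
    rintro _ ⟨b, hb, rfl⟩
    calc f b ≤ ‖b‖ * ‖u‖ := real_inner_le_norm b u
      _ ≤ N := by rw [hu1, mul_one]; exact hN b hb
  set σ := sSup (f '' B) with hσ
  set ε := (‖x‖ - 1) * r / 2 with hε
  have hε0 : 0 < ε := by
    have : 0 < ‖x‖ - 1 := by linarith
    positivity
  obtain ⟨_, ⟨b, hb, rfl⟩, hbσ⟩ := exists_lt_of_lt_csSup (hBne.image f)
    (show σ - ε < sSup (f '' B) by linarith)
  set y := b + r • x with hy
  obtain ⟨a, haP, had⟩ := hP y
  have haB : a ∉ B := by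
    intro h
    have h1 : f a ≤ σ := le_csSup hbdd (mem_image_of_mem _ h)
    have h2 : inner ℝ (y - a) u ≤ dist y a := by
      rw [dist_eq_norm]
      calc inner ℝ (y - a) u ≤ ‖y - a‖ * ‖u‖ := real_inner_le_norm _ _
        _ = ‖y - a‖ := by rw [hu1, mul_one]
    have h3 : inner ℝ (y - a) u = f b + r * ‖x‖ - f a := by
      rw [hy, inner_sub_left, inner_add_left, inner_smul_left]
      have h4 : inner ℝ x u = ‖x‖ := by
        nth_rewrite 1 [hxu]
        rw [inner_smul_left, real_inner_self_eq_norm_sq, hu1]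
        simp
      rw [h4]
      simp [hf]
    have h5 : ε = (‖x‖ - 1) * r / 2 := hε
    nlinarith
  have haA : a ∈ A := by
    rcases hAB haP with h | h
    · exact h
    · exact absurd h haB
  refine ⟨a, haA, b, hb, ?_, ?_⟩
  · have h1 : dist a b ≤ dist a y + dist y b := dist_triangle _ _ _
    have h2 : dist y b = r * ‖x‖ := by
      rw [dist_eq_norm, hy, add_sub_cancel_left, norm_smul, Real.norm_eq_abs, abs_of_pos hr]
    rw [dist_comm a y, h2] at h1
    nlinarith
  · have h1 : x - r⁻¹ • (a - b) = r⁻¹ • (y - a) := by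
      rw [hy]
      have : x = r⁻¹ • (r • x) := by rw [smul_smul, inv_mul_cancel₀ hr.ne', one_smul]
      nth_rewrite 1 [this]
      rw [← smul_sub]
      congr 1
      abel
    rw [dist_eq_norm, h1, norm_smul, Real.norm_eq_abs, abs_of_pos (inv_pos.2 hr)]
    rw [dist_eq_norm] at had
    calc r⁻¹ * ‖y - a‖ ≤ r⁻¹ * r := by gcongr
      _ = 1 := inv_mul_cancel₀ hr.ne'

/-- a set with at most `m` elements, nonempty, is covered by the range of a map from `Fin m` -/
lemma exists_fin_cover {α : Type*} {E : Set α} {m : ℕ} (hE : E.encard ≤ m) (hne : E.Nonempty) :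
    ∃ g : Fin m → α, E ⊆ range g := by
  classical
  have hfin : E.Finite := finite_of_encard_le_coe hE
  obtain ⟨e0, he0⟩ := hne
  set l := hfin.toFinset.toList with hl
  have hlen : l.length ≤ m := by
    rw [hl, Finset.length_toList]
    rw [hfin.encard_eq_coe_toFinset_card] at hE
    exact_mod_cast hE
  refine ⟨fun i => l.getD i e0, ?_⟩
  intro e he
  have h1 : e ∈ l := by rw [hl, Finset.mem_toList, hfin.mem_toFinset]; exact he
  obtain ⟨n, hn, rfl⟩ := List.getElem_of_mem h1
  refine ⟨⟨n, by omega⟩, ?_⟩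
  simp [hn]

/-- From a small set of short cross pairs to a ring of discs. -/
lemma ring_of_cut {r c : ℝ} (hr : 0 < r) (hc : 2 < c) {m : ℕ} {P A B : Set Pl}
    (hP : Covers r P) (hAB : P ⊆ A ∪ B) (hA : A.Nonempty) (hB : B.Nonempty)
    (hm : {q : Pl × Pl | q.1 ∈ A ∧ q.2 ∈ B ∧ dist q.1 q.2 < c * r}.encard ≤ m) :
    Ring m (c - 1) := by
  -- it is enough to cover the open annulus
  have key : ∀ p : Fin m → Pl, (∀ x : Pl, 1 < ‖x‖ → ‖x‖ < c - 1 → ∃ i, dist x (p i) ≤ 1) →
      Ring m (c - 1) := by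
    intro p hp
    refine ⟨p, ?_⟩
    have hclosed : IsClosed (closedBall (0 : Pl) 1 ∪ ⋃ i, closedBall (p i) 1) :=
      isClosed_closedBall.union (isClosed_iUnion_of_finite (fun i => isClosed_closedBall))
    rw [← closure_ball (0 : Pl) (by linarith : c - 1 ≠ 0)]
    apply closure_minimal _ hclosed
    intro x hx
    rw [mem_ball_zero_iff] at hx
    by_cases h1 : ‖x‖ ≤ 1
    · left; rw [mem_closedBall_zero_iff]; exact h1
    · right
      push Not at h1
      obtain ⟨i, hi⟩ := hp x h1 hx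
      exact mem_iUnion.2 ⟨i, hi⟩
  set E := {q : Pl × Pl | q.1 ∈ A ∧ q.2 ∈ B ∧ dist q.1 q.2 < c * r} with hE
  have hfin : E.Finite := finite_of_encard_le_coe hm
  obtain ⟨x0, hx0⟩ : ∃ x0 : Pl, ‖x0‖ = c / 2 := by
    refine ⟨EuclideanSpace.single 0 (c / 2), ?_⟩
    rw [EuclideanSpace.norm_single, Real.norm_eq_abs, abs_of_pos (by linarith)]
  rcases bounded_side hr hc hP hAB hfin with hb | hb
  · -- `A` bounded
    have hAB' : P ⊆ B ∪ A := by rw [union_comm]; exact hAB
    have hcov : ∀ x : Pl, 1 < ‖x‖ → ‖x‖ < c - 1 → ∃ q ∈ E, dist x (r⁻¹ • (q.2 - q.1)) ≤ 1 := by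
      intro x h1 h2
      obtain ⟨b, hb', a, ha', h3, h4⟩ := diff_cover hr hP hAB' hA hb x h1 h2
      exact ⟨(a, b), ⟨ha', hb', by rw [dist_comm]; exact h3⟩, h4⟩
    have hne : E.Nonempty := by
      obtain ⟨q, hq, _⟩ := hcov x0 (by rw [hx0]; linarith) (by rw [hx0]; linarith)
      exact ⟨q, hq⟩
    obtain ⟨g, hg⟩ := exists_fin_cover hm hne
    apply key (fun i => r⁻¹ • ((g i).2 - (g i).1))
    intro x h1 h2
    obtain ⟨q, hq, h3⟩ := hcov x h1 h2
    obtain ⟨i, rfl⟩ := hg hq
    exact ⟨i, h3⟩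
  · have hcov : ∀ x : Pl, 1 < ‖x‖ → ‖x‖ < c - 1 → ∃ q ∈ E, dist x (r⁻¹ • (q.1 - q.2)) ≤ 1 := by
      intro x h1 h2
      obtain ⟨a, ha', b, hb', h3, h4⟩ := diff_cover hr hP hAB hB hb x h1 h2
      exact ⟨(a, b), ⟨ha', hb', h3⟩, h4⟩
    have hne : E.Nonempty := by
      obtain ⟨q, hq, _⟩ := hcov x0 (by rw [hx0]; linarith) (by rw [hx0]; linarith)
      exact ⟨q, hq⟩
    obtain ⟨g, hg⟩ := exists_fin_cover hm hne
    apply key (fun i => r⁻¹ • ((g i).1 - (g i).2))
    intro x h1 h2
    obtain ⟨q, hq, h3⟩ := hcov x h1 h2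
    obtain ⟨i, rfl⟩ := hg hq
    exact ⟨i, h3⟩

end Pool.Agent.R231.KC
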