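import Pool.Agent.R231.KC.Graph

/-!
Explicit values of `rho m` for `m ≤ 6`, and bounds for all `m`.
-/

open Metric Set

namespace Pool.Agent.R231.KC

/-- complex version of `Ring` -/
def RingC (m : ℕ) (R : ℝ) : Prop :=
  ∃ p : Fin m → ℂ, ∀ z : ℂ, ‖z‖ ≤ R → ‖z‖ ≤ 1 ∨ ∃ i, ‖z - p i‖ ≤ 1

lemma ring_iff (m : ℕ) (R : ℝ) : Ring m R ↔ RingC m R := by
  set e := Complex.orthonormalBasisOneI.repr with he
  constructor
  · rintro ⟨p, hp⟩
    refine ⟨fun i => e.symm (p i), ?_⟩
    intro z hz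
    have h1 : e z ∈ closedBall (0 : Pl) R := by
      rw [mem_closedBall_zero_iff, e.norm_map]; exact hz
    rcases hp h1 with h2 | h2
    · left
      rw [mem_closedBall_zero_iff, e.norm_map] at h2; exact h2
    · right
      obtain ⟨i, hi⟩ := mem_iUnion.1 h2
      refine ⟨i, ?_⟩
      rw [mem_closedBall, dist_eq_norm] at hi
      rw [← e.norm_map, map_sub, e.apply_symm_apply]
      exact hi
  · rintro ⟨p, hp⟩
    refine ⟨fun i => e (p i), ?_⟩
    intro x hx
    rw [mem_closedBall_zero_iff] at hx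
    have h1 : ‖e.symm x‖ ≤ R := by rw [e.symm.norm_map]; exact hx
    rcases hp _ h1 with h2 | ⟨i, hi⟩
    · left
      rw [e.symm.norm_map] at h2
      rw [mem_closedBall_zero_iff]; exact h2
    · right
      rw [mem_iUnion]
      refine ⟨i, ?_⟩
      rw [mem_closedBall, dist_eq_norm]
      rw [← e.norm_map, map_sub, e.apply_symm_apply] at hi
      exact hi

lemma norm_sq_sub (R : ℝ) (θ : ℝ) (p : ℂ) :
    ‖(R : ℂ) * Complex.exp (θ * Complex.I) - p‖ ^ 2 =
      R ^ 2 + ‖p‖ ^ 2 - 2 * R * ‖p‖ * Real.cos (θ - p.arg) := by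
  have h1 := Complex.norm_mul_exp_arg_mul_I p
  have h2 : ‖(R : ℂ) * Complex.exp (θ * Complex.I) - p‖ ^ 2 =
      Complex.normSq ((R : ℂ) * Complex.exp (θ * Complex.I) - p) := by
    rw [Complex.normSq_eq_norm_sq]
  rw [h2]
  nth_rewrite 1 [← h1]
  rw [Complex.normSq_apply]
  simp only [Complex.sub_re, Complex.sub_im, Complex.mul_re, Complex.mul_im,
    Complex.ofReal_re, Complex.ofReal_im, Complex.exp_ofReal_mul_I_re,
    Complex.exp_ofReal_mul_I_im, zero_mul, sub_zero, add_zero]
  rw [Real.cos_sub]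
  have h3 := Real.sin_sq_add_cos_sq θ
  have h4 := Real.sin_sq_add_cos_sq p.arg
  linear_combination (R ^ 2) * h3 + (‖p‖ ^ 2) * h4

/-- arcs of a circle of radius `R > 1` covered by `m` unit discs -/
lemma circle_bound {m : ℕ} (hm : 2 ≤ m) {R : ℝ} (hR1 : 1 < R) (h : RingC m R) :
    R * Real.sin (Real.pi / m) ≤ 1 := by
  obtain ⟨p, hp⟩ := h
  have hpi := Real.pi_pos
  haveI : Fact (0 < 2 * Real.pi) := ⟨by positivity⟩
  have hR0 : 0 < R := by linarith
  set α := Real.arcsin (1 / R) with hα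
  have hR1' : 1 / R < 1 := by rw [div_lt_one hR0]; exact hR1
  have hRp : 0 < 1 / R := by positivity
  have hα0 : 0 < α := Real.arcsin_pos.2 hRp
  have hα1 : α ≤ Real.pi / 2 := Real.arcsin_le_pi_div_two _
  have hsα : Real.sin α = 1 / R := Real.sin_arcsin (by linarith) hR1'.le
  have hcα : R * Real.cos α = Real.sqrt (R ^ 2 - 1) := by
    rw [hα, Real.cos_arcsin]
    have h1 : R = Real.sqrt (R ^ 2) := (Real.sqrt_sq hR0.le).symm
    nth_rewrite 1 [h1]
    rw [← Real.sqrt_mul (by positivity)]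
    congr 1
    field_simp
  have hcov : (univ : Set (AddCircle (2 * Real.pi))) ⊆
      ⋃ i, closedBall ((Complex.arg (p i) : ℝ) : AddCircle (2 * Real.pi)) α := by
    intro t _
    induction t using QuotientAddGroup.induction_on with
    | H θ =>
    have hz : ‖(R : ℂ) * Complex.exp (θ * Complex.I)‖ = R := by
      rw [norm_mul, Complex.norm_exp_ofReal_mul_I, mul_one, Complex.norm_real, Real.norm_eq_abs,
        abs_of_pos hR0]
    rcases hp _ hz.le with h1 | ⟨i, hi⟩
    · rw [hz] at h1; linarith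
    · rw [mem_iUnion]
      refine ⟨i, ?_⟩
      have h2 := norm_sq_sub R θ (p i)
      have h3 : ‖(R : ℂ) * Complex.exp (θ * Complex.I) - p i‖ ^ 2 ≤ 1 := by
        have := norm_nonneg ((R : ℂ) * Complex.exp (θ * Complex.I) - p i)
        nlinarith
      set q := ‖p i‖ with hq
      have hq0 : 0 ≤ q := norm_nonneg _
      have h4 : R ^ 2 + q ^ 2 - 1 ≤ 2 * R * q * Real.cos (θ - (p i).arg) := by linarith
      have hqpos : 0 < q := by
        rcases hq0.lt_or_eq with h | h
        · exact h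
        · exfalso
          rw [← h] at h4
          nlinarith
      have h5 : Real.cos α ≤ Real.cos (θ - (p i).arg) := by
        have h6 : 2 * q * Real.sqrt (R ^ 2 - 1) ≤ R ^ 2 + q ^ 2 - 1 := by
          have h7 := Real.sq_sqrt (show 0 ≤ R ^ 2 - 1 by nlinarith)
          nlinarith [sq_nonneg (q - Real.sqrt (R ^ 2 - 1))]
        rw [← hcα] at h6
        have h8 : (2 * R * q) * Real.cos α ≤ (2 * R * q) * Real.cos (θ - (p i).arg) := by
          nlinarith
        exact le_of_mul_le_mul_left h8 (by positivity)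
      rw [mem_closedBall]
      have h9 : dist ((θ : ℝ) : AddCircle (2 * Real.pi))
          (((p i).arg : ℝ) : AddCircle (2 * Real.pi)) =
          ‖((θ - (p i).arg : ℝ) : AddCircle (2 * Real.pi))‖ := by
        rw [dist_eq_norm, AddCircle.coe_sub]
      change dist ((θ : ℝ) : AddCircle (2 * Real.pi))
          (((p i).arg : ℝ) : AddCircle (2 * Real.pi)) ≤ α
      rw [h9]
      have h10 : ‖((θ - (p i).arg : ℝ) : AddCircle (2 * Real.pi))‖ ≤ Real.pi := by
        have := AddCircle.norm_le_half_period (2 * Real.pi) (by positivity)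
          (x := ((θ - (p i).arg : ℝ) : AddCircle (2 * Real.pi)))
        rw [abs_of_pos (by positivity)] at this
        linarith
      by_contra hcon
      push Not at hcon
      have h11 := Real.cos_lt_cos_of_nonneg_of_le_pi hα0.le h10 hcon
      have h12 : Real.cos ‖((θ - (p i).arg : ℝ) : AddCircle (2 * Real.pi))‖ =
          Real.cos (θ - (p i).arg) := by
        rw [AddCircle.norm_eq, Real.cos_abs, Real.cos_sub_int_mul_two_pi]
      rw [h12] at h11
      linarith
  have h1 := MeasureTheory.measure_mono (μ := MeasureTheory.volume) hcov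
  rw [AddCircle.measure_univ] at h1
  have h2 : MeasureTheory.volume
      (⋃ i, closedBall ((Complex.arg (p i) : ℝ) : AddCircle (2 * Real.pi)) α) ≤
      ENNReal.ofReal (m * (2 * α)) := by
    refine (MeasureTheory.measure_iUnion_fintype_le _ _).trans ?_
    simp only [AddCircle.volume_closedBall]
    rw [Finset.sum_const, Finset.card_univ, Fintype.card_fin, nsmul_eq_mul,
      ENNReal.ofReal_mul (by positivity), ENNReal.ofReal_natCast]
    gcongr
    exact min_le_right _ _
  have h3 : 2 * Real.pi ≤ m * (2 * α) :=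
    (ENNReal.ofReal_le_ofReal_iff (by positivity)).1 (h1.trans h2)
  have hm0 : (0 : ℝ) < m := by
    have : 0 < m := by omega
    exact_mod_cast this
  have h4 : Real.pi / m ≤ α := by
    rw [div_le_iff₀ hm0]; linarith
  have h5 : Real.sin (Real.pi / m) ≤ Real.sin α := by
    apply Real.sin_le_sin_of_le_of_le_pi_div_two _ hα1 h4
    have : 0 < Real.pi / m := by positivity
    linarith
  rw [hsα] at h5
  calc R * Real.sin (Real.pi / m) ≤ R * (1 / R) := by gcongr
    _ = 1 := by field_simp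

/-- upper bound for `rho` from the outer circle -/
lemma rho_le_sin {m : ℕ} (hm : 2 ≤ m) : rho m ≤ 1 / Real.sin (Real.pi / m) := by
  have hpi := Real.pi_pos
  have hm0 : (2 : ℝ) ≤ m := by exact_mod_cast hm
  have hs : 0 < Real.sin (Real.pi / m) := by
    apply Real.sin_pos_of_pos_of_lt_pi (by positivity)
    rw [div_lt_iff₀ (by positivity)]
    nlinarith
  apply csSup_le ⟨1, ring_one m⟩
  intro R hR
  by_cases h1 : R ≤ 1
  · refine h1.trans ?_
    rw [le_div_iff₀ hs]
    have := Real.sin_le_one (Real.pi / m)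
    linarith
  · push Not at h1
    rw [le_div_iff₀ hs]
    exact circle_bound hm h1 ((ring_iff m R).1 hR)

lemma ring_succ {m : ℕ} {R : ℝ} (h : Ring m R) : Ring (m + 1) R := by
  obtain ⟨p, hp⟩ := h
  refine ⟨Fin.snoc p 0, ?_⟩
  intro x hx
  rcases hp hx with h1 | h1
  · left; exact h1
  · right
    obtain ⟨i, hi⟩ := mem_iUnion.1 h1
    rw [mem_iUnion]
    refine ⟨i.castSucc, ?_⟩
    rw [Fin.snoc_castSucc]
    exact hi

lemma rho_mono_succ (m : ℕ) : rho m ≤ rho (m + 1) :=
  csSup_le_csSup (bddAbove_ring _) ⟨1, ring_one m⟩ (fun _ h => ring_succ h)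

lemma rho_one : rho 1 = 1 := by
  apply le_antisymm _ (one_le_rho 1)
  refine (rho_mono_succ 1).trans ((rho_le_sin le_rfl).trans ?_)
  norm_num

lemma rho_two : rho 2 = 1 := by
  apply le_antisymm _ (one_le_rho 2)
  refine (rho_le_sin le_rfl).trans ?_
  norm_num

/-- the ring configuration -/
lemma ring_config {m : ℕ} (hm : 3 ≤ m) (hm6 : m ≤ 6) :
    RingC m (1 / Real.sin (Real.pi / m)) := by
  have hpi := Real.pi_pos
  have hm0 : (3 : ℝ) ≤ m := by exact_mod_cast hm
  have hm6' : (m : ℝ) ≤ 6 := by exact_mod_cast hm6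
  have hmpos : (0 : ℝ) < m := by linarith
  set γ := Real.pi / m with hγ
  have hγ0 : 0 < γ := by positivity
  have hγ1 : γ < Real.pi / 2 := by
    rw [hγ]
    apply div_lt_div_of_pos_left hpi (by norm_num) (by linarith)
  have hs : 0 < Real.sin γ := Real.sin_pos_of_pos_of_lt_pi hγ0 (by linarith)
  have hs2 : 1 / 2 ≤ Real.sin γ := by
    rw [← Real.sin_pi_div_six]
    apply Real.sin_le_sin_of_le_of_le_pi_div_two (by linarith) hγ1.le
    rw [hγ]
    gcongr
  set R := 1 / Real.sin γ with hR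
  have hRs : R * Real.sin γ = 1 := by rw [hR]; field_simp
  have hR2 : R ≤ 2 := by
    rw [hR, div_le_iff₀ hs]; linarith
  have hR0 : 0 < R := by positivity
  have hcg : 0 < Real.cos γ := Real.cos_pos_of_mem_Ioo ⟨by linarith, hγ1⟩
  haveI : NeZero m := ⟨by omega⟩
  refine ⟨fun i => ((R * Real.cos γ : ℝ) : ℂ) *
    Complex.exp (((2 * Real.pi * (i.val : ℝ) / m : ℝ) : ℂ) * Complex.I), ?_⟩
  intro z hz
  by_cases h1 : ‖z‖ ≤ 1
  · left; exact h1
  push Not at h1
  right
  set t := ‖z‖ with ht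
  set φ := z.arg with hφ
  set j : ℤ := round (φ * m / (2 * Real.pi)) with hj
  -- the index
  set i : Fin m := ⟨(j % (m : ℤ)).toNat, by
    have h2 : 0 ≤ j % (m : ℤ) := Int.emod_nonneg _ (by omega)
    have h3 : j % (m : ℤ) < m := Int.emod_lt_of_pos _ (by omega)
    omega⟩ with hi
  have hival : (i.val : ℤ) = j % (m : ℤ) := by
    have h2 : 0 ≤ j % (m : ℤ) := Int.emod_nonneg _ (by omega)
    simp only [hi]
    exact Int.toNat_of_nonneg h2
  refine ⟨i, ?_⟩
  set ψ := φ - 2 * Real.pi * (j : ℝ) / m with hψ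
  have hψγ : |ψ| ≤ γ := by
    have h2 := abs_sub_round (φ * m / (2 * Real.pi))
    rw [← hj] at h2
    have h3 : ψ = (φ * m / (2 * Real.pi) - j) * (2 * Real.pi / m) := by
      rw [hψ]; field_simp
    rw [h3, abs_mul, abs_of_pos (show (0 : ℝ) < 2 * Real.pi / m by positivity)]
    calc |φ * m / (2 * Real.pi) - j| * (2 * Real.pi / m) ≤ 1 / 2 * (2 * Real.pi / m) := by gcongr
      _ = γ := by rw [hγ]; ring
  have hcosψ : Real.cos γ ≤ Real.cos ψ := by
    rw [← Real.cos_abs ψ]
    exact Real.cos_le_cos_of_nonneg_of_le_pi (abs_nonneg _) (by linarith) hψγ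
  -- rewrite the distance
  have hq : (j : ℝ) = i.val + m * ((j / (m : ℤ) : ℤ) : ℝ) := by
    have h2 := Int.emod_add_mul_ediv j (m : ℤ)
    rw [← hival] at h2
    exact_mod_cast h2.symm
  have hdist : ‖z - ((R * Real.cos γ : ℝ) : ℂ) *
      Complex.exp (((2 * Real.pi * (i.val : ℝ) / m : ℝ) : ℂ) * Complex.I)‖ ^ 2 =
      (R * Real.cos γ) ^ 2 + t ^ 2 - 2 * (R * Real.cos γ) * t * Real.cos ψ := by
    rw [norm_sub_rev, norm_sq_sub]
    congr 2
    rw [← Real.cos_neg ψ, hψ]
    have h3 : -(φ - 2 * Real.pi * (j : ℝ) / m) =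
        (2 * Real.pi * (i.val : ℝ) / m - z.arg) + ((j / (m : ℤ) : ℤ) : ℝ) * (2 * Real.pi) := by
      rw [hq, ← hφ]; field_simp; ring
    rw [h3, Real.cos_add_int_mul_two_pi]
  have hle : (R * Real.cos γ) ^ 2 + t ^ 2 - 2 * (R * Real.cos γ) * t * Real.cos ψ ≤ 1 := by
    have h2 : (R * Real.cos γ) * t * Real.cos γ ≤ (R * Real.cos γ) * t * Real.cos ψ := by
      gcongr
    have hsc := Real.sin_sq_add_cos_sq γ
    have h3 : (R * Real.cos γ) ^ 2 = R ^ 2 - 1 := by
      have : R ^ 2 * Real.sin γ ^ 2 = 1 := by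
        rw [← mul_pow, hRs, one_pow]
      nlinarith
    have h4 : (R * Real.cos γ) * t * Real.cos γ = t * (R - 1 / R) := by
      have h5 : R * Real.cos γ ^ 2 = R - 1 / R := by
        have h6 : Real.sin γ = 1 / R := by rw [hR]; field_simp
        have h7 : Real.cos γ ^ 2 = 1 - (1 / R) ^ 2 := by rw [← h6]; linarith
        rw [h7]; field_simp
      linear_combination t * h5
    have h5 : t ≤ R := hz
    -- convexity in `t`
    have h6 : (R - t) * (t + R - 2 * (R - 1 / R)) ≥ 0 := by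
      apply mul_nonneg (by linarith)
      have h7 : 2 * (1 / R) ≥ 1 := by
        rw [ge_iff_le, ← div_le_iff₀' (by norm_num), div_le_div_iff₀ (by norm_num) hR0]
        linarith
      linarith
    have h8 : R * (1 / R) = 1 := by field_simp
    nlinarith
  have h9 := hdist.le.trans hle
  have := norm_nonneg (z - ((R * Real.cos γ : ℝ) : ℂ) *
      Complex.exp (((2 * Real.pi * (i.val : ℝ) / m : ℝ) : ℂ) * Complex.I))
  nlinarith

/-- `rho m = 1 / sin (π/m)` for `2 ≤ m ≤ 6`. -/
theorem rho_eq {m : ℕ} (hm : 2 ≤ m) (hm6 : m ≤ 6) : rho m = 1 / Real.sin (Real.pi / m) := by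
  rcases Nat.lt_or_ge m 3 with h | h
  · have : m = 2 := by omega
    subst this
    rw [rho_two]; norm_num
  · apply le_antisymm (rho_le_sin hm)
    exact le_csSup (bddAbove_ring m) ((ring_iff _ _).2 (ring_config h hm6))

end Pool.Agent.R231.KC
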