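import Pool.Agent.R231.KC.Basic

/-!
The graph part: `c` forces `k`-edge-connectivity iff `c > 1 + rho (k-1)`.
-/

open Metric Set

namespace Pool.Agent.R231.KC

/-- The extremal arrangement: the origin, `m` points, and everything at distance at least `c'`. -/
def arr (r c' : ℝ) {m : ℕ} (p : Fin m → Pl) : Set Pl :=
  {0} ∪ (range (fun i => r • p i) ∪ {x | c' * r ≤ ‖x‖})

lemma arr_covers {r c' : ℝ} (hr : 0 < r) (hc : 2 ≤ c') {m : ℕ} {p : Fin m → Pl}
    (hp : closedBall (0 : Pl) (c' - 1) ⊆ closedBall 0 1 ∪ ⋃ i, closedBall (p i) 1) :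
    Covers r (arr r c' p) := by
  intro x
  by_cases h1 : ‖x‖ ≤ (c' - 1) * r
  · -- scale by `r`
    have h2 : r⁻¹ • x ∈ closedBall (0 : Pl) (c' - 1) := by
      rw [mem_closedBall_zero_iff, norm_smul, Real.norm_eq_abs, abs_of_pos (inv_pos.2 hr),
        inv_mul_le_iff₀ hr]
      linarith
    rcases hp h2 with h3 | h3
    · refine ⟨0, Or.inl rfl, ?_⟩
      rw [mem_closedBall_zero_iff, norm_smul, Real.norm_eq_abs, abs_of_pos (inv_pos.2 hr),
        inv_mul_le_iff₀ hr] at h3
      rw [dist_zero_right]; linarith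
    · obtain ⟨i, hi⟩ := mem_iUnion.1 h3
      refine ⟨r • p i, Or.inr (Or.inl ⟨i, rfl⟩), ?_⟩
      rw [mem_closedBall, dist_eq_norm] at hi
      rw [dist_eq_norm]
      have h4 : x - r • p i = r • (r⁻¹ • x - p i) := by
        rw [smul_sub, smul_smul, mul_inv_cancel₀ hr.ne', one_smul]
      rw [h4, norm_smul, Real.norm_eq_abs, abs_of_pos hr]
      nlinarith
  · push Not at h1
    by_cases h2 : c' * r ≤ ‖x‖
    · exact ⟨x, Or.inr (Or.inr h2), by rw [dist_self]; exact hr.le⟩
    · push Not at h2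
      have hx0 : 0 < ‖x‖ := by
        have : 0 ≤ (c' - 1) * r := by
          have : 0 ≤ c' - 1 := by linarith
          positivity
        linarith
      refine ⟨(c' * r / ‖x‖) • x, Or.inr (Or.inr ?_), ?_⟩
      · change c' * r ≤ ‖(c' * r / ‖x‖) • x‖
        rw [norm_smul, Real.norm_eq_abs, abs_of_nonneg (by positivity), div_mul_cancel₀ _ hx0.ne']
      · rw [dist_eq_norm]
        have h4 : x - (c' * r / ‖x‖) • x = (1 - c' * r / ‖x‖) • x := by
          rw [sub_smul, one_smul]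
        have h5 : 1 - c' * r / ‖x‖ ≤ 0 := by
          rw [sub_nonpos, le_div_iff₀ hx0]; linarith
        rw [h4, norm_smul, Real.norm_eq_abs, abs_of_nonpos h5]
        have h6 : -(1 - c' * r / ‖x‖) * ‖x‖ = c' * r - ‖x‖ := by
          field_simp
          ring
        rw [h6]
        linarith

/-- If a ring of `m` discs of outer radius `c' - 1` exists, `c ≤ c'` does not force
`(m+1)`-edge-connectivity. -/
lemma not_good {r c c' : ℝ} (hr : 0 < r) (hc' : 2 ≤ c') (hcc : c ≤ c') {m : ℕ}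
    (hm : Ring m (c' - 1)) : c ∉ good r (m + 1) := by
  rintro ⟨hc0, hgood⟩
  obtain ⟨p, hp⟩ := hm
  set P := arr r c' p with hPdef
  have hPc : Covers r P := arr_covers hr hc' hp
  have h0 : (0 : Pl) ∈ P := Or.inl rfl
  -- the edges at the origin
  set s : Set (Sym2 P) := {e | ∃ i : Fin m, ∃ q : P, (q : Pl) = r • p i ∧ e = s(⟨0, h0⟩, q)}
    with hs
  have hcard : s.encard < ((m + 1 : ℕ) : ℕ∞) := by
    have h1 : s ⊆ range (fun i : Fin m =>
        s((⟨0, h0⟩ : P), (⟨r • p i, Or.inr (Or.inl ⟨i, rfl⟩)⟩ : P))) := by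
      rintro e ⟨i, q, hq, rfl⟩
      refine ⟨i, ?_⟩
      simp only
      congr 1
      have : q = ⟨r • p i, Or.inr (Or.inl ⟨i, rfl⟩)⟩ := Subtype.ext hq
      rw [this]
    have h2 : s.encard ≤ m := by
      refine (encard_le_encard h1).trans ?_
      rw [← image_univ]
      refine (encard_image_le _ _).trans ?_
      simp
    refine lt_of_le_of_lt h2 ?_
    exact_mod_cast Nat.lt_succ_self m
  have hconn := hgood P hPc s hcard
  -- a far vertex
  obtain ⟨z, hz⟩ : ∃ z : Pl, c' * r ≤ ‖z‖ := by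
    refine ⟨EuclideanSpace.single 0 (c' * r), ?_⟩
    rw [EuclideanSpace.norm_single, Real.norm_eq_abs]
    exact le_abs_self _
  have hzP : z ∈ P := Or.inr (Or.inr hz)
  have hz0 : z ≠ 0 := by
    intro h
    rw [h, norm_zero] at hz
    have : 0 < c' * r := by
      have : 0 < c' := by linarith
      positivity
    linarith
  obtain ⟨w⟩ := hconn.preconnected ⟨0, h0⟩ ⟨z, hzP⟩
  cases w with
  | nil => exact hz0 rfl
  | cons hadj w' =>
    rename_i v
    rw [SimpleGraph.deleteEdges_adj] at hadj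
    obtain ⟨⟨hne, hd⟩, hns⟩ := hadj
    have hv := v.2
    rw [dist_zero_left] at hd
    rcases hv with hv | ⟨i, hi⟩ | hv
    · apply hne
      apply Subtype.ext
      exact (mem_singleton_iff.1 hv).symm
    · exact hns ⟨i, v, hi.symm, rfl⟩
    · have hv' : c' * r ≤ ‖(v : Pl)‖ := hv
      have : c * r ≤ c' * r := by gcongr
      linarith

/-- The main equivalence. -/
theorem good_iff {r : ℝ} (hr : 0 < r) (m : ℕ) (c : ℝ) : c ∈ good r (m + 1) ↔ 1 + rho m < c := by
  constructor
  · intro h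
    by_contra hcon
    push Not at hcon
    apply not_good (c' := 1 + rho m) hr (by linarith [one_le_rho m]) hcon (m := m) _ h
    have := ring_rho m
    rwa [add_sub_cancel_left]
  · intro h
    have h1ρ := one_le_rho m
    have hc2 : 2 < c := by linarith
    refine ⟨by linarith, ?_⟩
    intro P hP s hs
    by_contra hcon
    -- `P` is nonempty
    obtain ⟨p0, hp0, _⟩ := hP 0
    have hne : Nonempty P := ⟨⟨p0, hp0⟩⟩
    have hnpre : ¬ ((distGraph c r P).deleteEdges s).Preconnected := fun h' => hcon ⟨h'⟩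
    unfold SimpleGraph.Preconnected at hnpre
    push Not at hnpre
    obtain ⟨u, v, huv⟩ := hnpre
    set A : Set Pl := {x | ∃ hx : x ∈ P, ((distGraph c r P).deleteEdges s).Reachable u ⟨x, hx⟩}
      with hA
    set B : Set Pl := {x | ∃ hx : x ∈ P, ¬ ((distGraph c r P).deleteEdges s).Reachable u ⟨x, hx⟩}
      with hB
    have hAB : P ⊆ A ∪ B := by
      intro x hx
      by_cases h' : ((distGraph c r P).deleteEdges s).Reachable u ⟨x, hx⟩
      · exact Or.inl ⟨hx, h'⟩
      · exact Or.inr ⟨hx, h'⟩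
    have hAne : A.Nonempty := ⟨u, u.2, SimpleGraph.Reachable.refl _⟩
    have hBne : B.Nonempty := ⟨v, v.2, huv⟩
    have hcard : {q : Pl × Pl | q.1 ∈ A ∧ q.2 ∈ B ∧ dist q.1 q.2 < c * r}.encard ≤ m := by
      classical
      set E := {q : Pl × Pl | q.1 ∈ A ∧ q.2 ∈ B ∧ dist q.1 q.2 < c * r} with hE
      set φ : Pl × Pl → Sym2 P := fun q => if h : q.1 ∈ P ∧ q.2 ∈ P then
        s((⟨q.1, h.1⟩ : P), (⟨q.2, h.2⟩ : P)) else s(⟨p0, hp0⟩, ⟨p0, hp0⟩) with hφ
      have hφs : ∀ q ∈ E, φ q ∈ s := by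
        rintro ⟨a, b⟩ ⟨⟨ha, hra⟩, ⟨hb, hrb⟩, hd⟩
        simp only at ha hb hra hrb hd
        have h1 : φ (a, b) = s((⟨a, ha⟩ : P), (⟨b, hb⟩ : P)) := by simp [hφ, ha, hb]
        rw [h1]
        by_contra hns
        apply hrb
        apply hra.trans
        apply SimpleGraph.Adj.reachable
        rw [SimpleGraph.deleteEdges_adj]
        refine ⟨⟨?_, hd⟩, hns⟩
        intro e
        apply hrb
        rw [← e]; exact hra
      have hinj : InjOn φ E := by
        rintro ⟨a, b⟩ ⟨⟨ha, hra⟩, ⟨hb, hrb⟩, _⟩ ⟨a', b'⟩ ⟨⟨ha', hra'⟩, ⟨hb', hrb'⟩, _⟩ he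
        simp only at ha hb hra hrb ha' hb' hra' hrb'
        have h1 : φ (a, b) = s((⟨a, ha⟩ : P), (⟨b, hb⟩ : P)) := by simp [hφ, ha, hb]
        have h2 : φ (a', b') = s((⟨a', ha'⟩ : P), (⟨b', hb'⟩ : P)) := by simp [hφ, ha', hb']
        rw [h1, h2, Sym2.eq_iff] at he
        rcases he with ⟨e1, e2⟩ | ⟨e1, e2⟩
        · rw [Subtype.mk.injEq] at e1 e2
          rw [e1, e2]
        · exfalso
          apply hrb'
          rw [← e1]; exact hra
      have h3 : E.encard ≤ s.encard := by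
        rw [← hinj.encard_image]
        apply encard_le_encard
        rintro _ ⟨q, hq, rfl⟩
        exact hφs q hq
      refine h3.trans ?_
      have h4 : s.encard < ((m + 1 : ℕ) : ℕ∞) := hs
      exact ENat.lt_add_one_iff (by simp) |>.1 (by exact_mod_cast h4)
    have hring := ring_of_cut hr hc2 hP hAB hAne hBne hcard
    have := le_csSup (bddAbove_ring m) hring
    have h5 : c - 1 ≤ rho m := this
    linarith

/-- `c_k = 1 + rho (k - 1)`. -/
theorem sInf_good {r : ℝ} (hr : 0 < r) (m : ℕ) : sInf (good r (m + 1)) = 1 + rho m := by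
  have h1 : good r (m + 1) = Ioi (1 + rho m) := by
    ext c; exact good_iff hr m c
  rw [h1, csInf_Ioi]

end Pool.Agent.R231.KC
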