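import Pool.Agent.R231.KC.Explicit

/-!
Lower bounds for `rho m`: square grid, and the ring with `m` discs.
-/

open Metric Set

namespace Pool.Agent.R231.KC

lemma grid_one {n : ℕ} (hn : 0 < n) {t : ℝ} (ht : |t| ≤ n / Real.sqrt 2) :
    ∃ i < n, |t - (2 * (i : ℝ) + 1 - n) / Real.sqrt 2| ≤ 1 / Real.sqrt 2 := by
  have h2 : 0 < Real.sqrt 2 := Real.sqrt_pos.2 (by norm_num)
  set s := (t * Real.sqrt 2 + n) / 2 with hs
  have hts : t = (2 * s - n) / Real.sqrt 2 := by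
    rw [hs]; field_simp; ring
  obtain ⟨h3, h4⟩ := abs_le.1 ht
  have h3' : -(n : ℝ) ≤ t * Real.sqrt 2 := by
    have : -(n / Real.sqrt 2) * Real.sqrt 2 ≤ t * Real.sqrt 2 := by gcongr
    have h5 : -(n / Real.sqrt 2) * Real.sqrt 2 = -(n : ℝ) := by field_simp
    linarith
  have h4' : t * Real.sqrt 2 ≤ n := by
    have : t * Real.sqrt 2 ≤ n / Real.sqrt 2 * Real.sqrt 2 := by gcongr
    have h5 : (n / Real.sqrt 2) * Real.sqrt 2 = (n : ℝ) := by field_simp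
    linarith
  have hs0 : 0 ≤ s := by rw [hs]; linarith
  have hsn : s ≤ n := by rw [hs]; linarith
  have key : ∀ i : ℕ, (i : ℝ) ≤ s → s ≤ i + 1 →
      |t - (2 * (i : ℝ) + 1 - n) / Real.sqrt 2| ≤ 1 / Real.sqrt 2 := by
    intro i h5 h6
    have h7 : t - (2 * (i : ℝ) + 1 - n) / Real.sqrt 2 = (2 * (s - i) - 1) / Real.sqrt 2 := by
      rw [hts]; field_simp; ring
    rw [h7, abs_div, abs_of_pos h2]
    apply div_le_div_of_nonneg_right _ h2.le
    rw [abs_le]; constructor <;> linarith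
  by_cases h5 : s < n
  · refine ⟨⌊s⌋₊, ?_, key _ (Nat.floor_le hs0) (Nat.lt_floor_add_one s).le⟩
    rw [Nat.floor_lt hs0]; exact h5
  · push Not at h5
    have h6 : s = n := le_antisymm hsn h5
    refine ⟨n - 1, by omega, key _ ?_ ?_⟩
    · rw [h6]; exact_mod_cast Nat.sub_le n 1
    · rw [h6, Nat.cast_sub (by omega)]; push_cast; linarith

lemma ring_grid {m n : ℕ} (hn : n ^ 2 ≤ m) : RingC m (n / Real.sqrt 2) := by
  have h2 : 0 < Real.sqrt 2 := Real.sqrt_pos.2 (by norm_num)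
  rcases Nat.eq_zero_or_pos n with rfl | hpos
  · refine ⟨fun _ => 0, fun z hz => ?_⟩
    left
    simp only [Nat.cast_zero, zero_div] at hz
    linarith
  refine ⟨fun k => ⟨(2 * ((k.val / n : ℕ) : ℝ) + 1 - n) / Real.sqrt 2,
    (2 * ((k.val % n : ℕ) : ℝ) + 1 - n) / Real.sqrt 2⟩, ?_⟩
  intro z hz
  right
  obtain ⟨i, hi, hi'⟩ := grid_one hpos ((Complex.abs_re_le_norm z).trans hz)
  obtain ⟨j, hj, hj'⟩ := grid_one hpos ((Complex.abs_im_le_norm z).trans hz)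
  have hlt : i * n + j < m := by
    have : i * n + j < n ^ 2 := by nlinarith
    omega
  refine ⟨⟨i * n + j, hlt⟩, ?_⟩
  have e1 : (i * n + j) / n = i := by
    rw [Nat.add_comm, Nat.add_mul_div_right _ _ hpos, Nat.div_eq_of_lt hj, zero_add]
  have e2 : (i * n + j) % n = j := by
    rw [Nat.add_comm, Nat.add_mul_mod_self_right, Nat.mod_eq_of_lt hj]
  simp only [e1, e2]
  rw [← sq_le_one_iff₀ (norm_nonneg _), ← Complex.normSq_eq_norm_sq, Complex.normSq_apply]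
  simp only [Complex.sub_re, Complex.sub_im]
  have h3 : (z.re - (2 * (i : ℝ) + 1 - n) / Real.sqrt 2) ^ 2 ≤ 1 / 2 := by
    rw [← sq_abs]
    calc |z.re - (2 * (i : ℝ) + 1 - n) / Real.sqrt 2| ^ 2 ≤ (1 / Real.sqrt 2) ^ 2 := by gcongr
      _ = 1 / 2 := by rw [div_pow, Real.sq_sqrt (by norm_num)]; norm_num
  have h4 : (z.im - (2 * (j : ℝ) + 1 - n) / Real.sqrt 2) ^ 2 ≤ 1 / 2 := by
    rw [← sq_abs]
    calc |z.im - (2 * (j : ℝ) + 1 - n) / Real.sqrt 2| ^ 2 ≤ (1 / Real.sqrt 2) ^ 2 := by gcongr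
      _ = 1 / 2 := by rw [div_pow, Real.sq_sqrt (by norm_num)]; norm_num
  nlinarith

theorem rho_ge_grid (m : ℕ) : (Nat.sqrt m : ℝ) / Real.sqrt 2 ≤ rho m := by
  apply le_csSup (bddAbove_ring m)
  exact (ring_iff _ _).2 (ring_grid (Nat.sqrt_le' m))

end Pool.Agent.R231.KC
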