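import Pool.Agent.R231.KC.Grid

/-!
The values `rho m = 1 + 2 cos (2π/m)` for `m = 7, 8, 9`, and the lower bound for all `m ≥ 3`.
-/

open Metric Set

namespace Pool.Agent.R231.KC

lemma ring_pts {m : ℕ} (hm : 2 ≤ m) {D : ℝ} (hD : 0 ≤ D) :
    ∃ p : Fin m → ℂ, ∀ z : ℂ, ∃ i,
      ‖z - p i‖ ^ 2 ≤ D ^ 2 + ‖z‖ ^ 2 - 2 * D * ‖z‖ * Real.cos (Real.pi / m) := by
  have hpi := Real.pi_pos
  have hm0 : (2 : ℝ) ≤ m := by exact_mod_cast hm
  have hmpos : (0 : ℝ) < m := by linarith
  set γ := Real.pi / m with hγ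
  have hγ0 : 0 < γ := by positivity
  have hγ1 : γ ≤ Real.pi / 2 := by
    rw [hγ]
    apply div_le_div_of_nonneg_left hpi.le (by norm_num) hm0
  refine ⟨fun i => (D : ℂ) *
    Complex.exp (((2 * Real.pi * (i.val : ℝ) / m : ℝ) : ℂ) * Complex.I), ?_⟩
  intro z
  set t := ‖z‖ with ht
  set φ := z.arg with hφ
  set j : ℤ := round (φ * m / (2 * Real.pi)) with hj
  set i : Fin m := ⟨(j % (m : ℤ)).toNat, by
    have h2 : 0 ≤ j % (m : ℤ) := Int.emod_nonneg _ (by omega)
    have h3 : j % (m : ℤ) < m := Int.emod_lt_of_pos _ (by omega)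
    omega⟩ with hi
  have hival : (i.val : ℤ) = j % (m : ℤ) := by
    have h2 : 0 ≤ j % (m : ℤ) := Int.emod_nonneg _ (by omega)
    simp only [hi]
    exact Int.toNat_of_nonneg h2
  refine ⟨i, ?_⟩
  set ψ := φ - 2 * Real.pi * (j : ℝ) / m with hψ
  have hψγ : |ψ| ≤ γ := by
    have h2 := abs_sub_round (φ * m / (2 * Real.pi))
    rw [← hj] at h2
    have h3 : ψ = (φ * m / (2 * Real.pi) - j) * (2 * Real.pi / m) := by
      rw [hψ]; field_simp
    rw [h3, abs_mul, abs_of_pos (show (0 : ℝ) < 2 * Real.pi / m by positivity)]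
    calc |φ * m / (2 * Real.pi) - j| * (2 * Real.pi / m) ≤ 1 / 2 * (2 * Real.pi / m) := by gcongr
      _ = γ := by rw [hγ]; ring
  have hcosψ : Real.cos γ ≤ Real.cos ψ := by
    rw [← Real.cos_abs ψ]
    exact Real.cos_le_cos_of_nonneg_of_le_pi (abs_nonneg _) (by linarith) hψγ
  have hq : (j : ℝ) = i.val + m * ((j / (m : ℤ) : ℤ) : ℝ) := by
    have h2 := Int.emod_add_mul_ediv j (m : ℤ)
    rw [← hival] at h2
    exact_mod_cast h2.symm
  have hdist : ‖z - (D : ℂ) *
      Complex.exp (((2 * Real.pi * (i.val : ℝ) / m : ℝ) : ℂ) * Complex.I)‖ ^ 2 =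
      D ^ 2 + t ^ 2 - 2 * D * t * Real.cos ψ := by
    rw [norm_sub_rev, norm_sq_sub]
    congr 2
    rw [← Real.cos_neg ψ, hψ]
    have h3 : -(φ - 2 * Real.pi * (j : ℝ) / m) =
        (2 * Real.pi * (i.val : ℝ) / m - z.arg) + ((j / (m : ℤ) : ℤ) : ℝ) * (2 * Real.pi) := by
      rw [hq, ← hφ]; field_simp; ring
    rw [h3, Real.cos_add_int_mul_two_pi]
  rw [hdist]
  have h5 : 2 * D * t * Real.cos γ ≤ 2 * D * t * Real.cos ψ := by gcongr
  linarith

/-- the ring with radius `2 cos (π/m)` -/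
lemma ring_config2 {m : ℕ} (hm : 2 ≤ m) : RingC m (1 + 2 * Real.cos (2 * (Real.pi / m))) := by
  have hpi := Real.pi_pos
  have hm0 : (2 : ℝ) ≤ m := by exact_mod_cast hm
  set γ := Real.pi / m with hγ
  have hγ0 : 0 < γ := by positivity
  have hγ1 : γ ≤ Real.pi / 2 := by
    rw [hγ]
    apply div_le_div_of_nonneg_left hpi.le (by norm_num) hm0
  have hcg : 0 ≤ Real.cos γ := Real.cos_nonneg_of_mem_Icc ⟨by linarith, hγ1⟩
  obtain ⟨p, hp⟩ := ring_pts hm (D := 2 * Real.cos γ) (by positivity)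
  refine ⟨p, fun z hz => ?_⟩
  by_cases h1 : ‖z‖ ≤ 1
  · left; exact h1
  right
  push Not at h1
  obtain ⟨i, hi⟩ := hp z
  refine ⟨i, ?_⟩
  rw [← sq_le_one_iff₀ (norm_nonneg _)]
  refine hi.trans ?_
  rw [Real.cos_two_mul] at hz
  rw [← hγ]
  nlinarith [mul_nonneg (sub_nonneg.2 h1.le) (sub_nonneg.2 hz)]

theorem rho_ge_cos {m : ℕ} (hm : 2 ≤ m) : 1 + 2 * Real.cos (2 * (Real.pi / m)) ≤ rho m :=
  le_csSup (bddAbove_ring m) ((ring_iff _ _).2 (ring_config2 hm))

/-- total length of the arcs cut out of a covered circle -/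
lemma arcs {m : ℕ} {p : Fin m → ℂ} {s : ℝ} (hs : 0 < s) (hp : ∀ i, p i ≠ 0)
    (hcov : ∀ θ : ℝ, ∃ i, ‖(s : ℂ) * Complex.exp (θ * Complex.I) - p i‖ ≤ 1) :
    Real.pi ≤ ∑ i, Real.arccos ((s ^ 2 + ‖p i‖ ^ 2 - 1) / (2 * s * ‖p i‖)) := by
  have hpi := Real.pi_pos
  haveI : Fact (0 < 2 * Real.pi) := ⟨by positivity⟩
  have hcov' : (univ : Set (AddCircle (2 * Real.pi))) ⊆
      ⋃ i, closedBall ((Complex.arg (p i) : ℝ) : AddCircle (2 * Real.pi))
        (Real.arccos ((s ^ 2 + ‖p i‖ ^ 2 - 1) / (2 * s * ‖p i‖))) := by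
    intro t _
    induction t using QuotientAddGroup.induction_on with
    | H θ =>
    obtain ⟨i, hi⟩ := hcov θ
    rw [mem_iUnion]
    refine ⟨i, ?_⟩
    have h2 := norm_sq_sub s θ (p i)
    have h3 : ‖(s : ℂ) * Complex.exp (θ * Complex.I) - p i‖ ^ 2 ≤ 1 := by
      have := norm_nonneg ((s : ℂ) * Complex.exp (θ * Complex.I) - p i)
      nlinarith
    have hq : 0 < ‖p i‖ := norm_pos_iff.2 (hp i)
    have h5 : (s ^ 2 + ‖p i‖ ^ 2 - 1) / (2 * s * ‖p i‖) ≤ Real.cos (θ - (p i).arg) := by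
      rw [div_le_iff₀ (by positivity)]
      linarith
    have h9 : dist ((θ : ℝ) : AddCircle (2 * Real.pi))
        (((p i).arg : ℝ) : AddCircle (2 * Real.pi)) =
        ‖((θ - (p i).arg : ℝ) : AddCircle (2 * Real.pi))‖ := by
      rw [dist_eq_norm, AddCircle.coe_sub]
    change dist ((θ : ℝ) : AddCircle (2 * Real.pi))
        (((p i).arg : ℝ) : AddCircle (2 * Real.pi)) ≤ _
    rw [h9]
    have h10 : ‖((θ - (p i).arg : ℝ) : AddCircle (2 * Real.pi))‖ ≤ Real.pi := by
      have := AddCircle.norm_le_half_period (2 * Real.pi) (by positivity)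
        (x := ((θ - (p i).arg : ℝ) : AddCircle (2 * Real.pi)))
      rw [abs_of_pos (by positivity)] at this
      linarith
    have h12 : Real.cos ‖((θ - (p i).arg : ℝ) : AddCircle (2 * Real.pi))‖ =
        Real.cos (θ - (p i).arg) := by
      rw [AddCircle.norm_eq, Real.cos_abs, Real.cos_sub_int_mul_two_pi]
    rw [← Real.arccos_cos (norm_nonneg _) h10]
    apply Real.arccos_le_arccos
    rw [h12]; exact h5
  have h1 := MeasureTheory.measure_mono (μ := MeasureTheory.volume) hcov'
  rw [AddCircle.measure_univ] at h1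
  have h2 : MeasureTheory.volume
      (⋃ i, closedBall ((Complex.arg (p i) : ℝ) : AddCircle (2 * Real.pi))
        (Real.arccos ((s ^ 2 + ‖p i‖ ^ 2 - 1) / (2 * s * ‖p i‖)))) ≤
      ENNReal.ofReal (∑ i, 2 * Real.arccos ((s ^ 2 + ‖p i‖ ^ 2 - 1) / (2 * s * ‖p i‖))) := by
    refine (MeasureTheory.measure_iUnion_fintype_le _ _).trans ?_
    rw [ENNReal.ofReal_sum_of_nonneg (fun i _ => by
      have := Real.arccos_nonneg ((s ^ 2 + ‖p i‖ ^ 2 - 1) / (2 * s * ‖p i‖))
      linarith)]
    apply Finset.sum_le_sum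
    intro i _
    rw [AddCircle.volume_closedBall]
    exact ENNReal.ofReal_le_ofReal (min_le_right _ _)
  have h0 : 0 ≤ ∑ i, 2 * Real.arccos ((s ^ 2 + ‖p i‖ ^ 2 - 1) / (2 * s * ‖p i‖)) :=
    Finset.sum_nonneg (fun i _ => by
      have := Real.arccos_nonneg ((s ^ 2 + ‖p i‖ ^ 2 - 1) / (2 * s * ‖p i‖))
      linarith)
  have h3 := (ENNReal.ofReal_le_ofReal_iff h0).1 (h1.trans h2)
  rw [← Finset.mul_sum] at h3
  linarith

/-- The numerical conditions on the angle `θ = π/m`, with `R = 1 + 2 cos 2θ`. -/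
structure Cond (m : ℕ) (θ R : ℝ) : Prop where
  hθ : θ = Real.pi / m
  hR : R = 1 + 2 * Real.cos (2 * θ)
  pos : 0 < θ
  small : θ < Real.pi / 6
  c0 : 2 < R
  c1 : 1 ≤ (R - 1) * Real.cos θ
  c2 : (R - 2) * (Real.pi / 2) < 2 * (R - 1) * θ
  c3 : 1 / R ≤ Real.sin (2 * (R - 1) * θ / R)

lemma G_nonneg {m : ℕ} {θ R : ℝ} (h : Cond m θ R) {x : ℝ} (hx : |x| ≤ θ) :
    0 ≤ R ^ 2 + 1 + 2 * Real.cos (2 * θ + 2 * x) - 2 * R * Real.cos (2 * θ + 2 / R * x) -
      2 * R * Real.cos (2 * ((R - 1) / R) * x) := by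
  have hpi := Real.pi_pos
  have hR0 : 0 < R := by linarith [h.c0]
  have hθ0 := h.pos
  have hθ1 := h.small
  set y := (R - 1) / R with hy
  have hy0 : 0 < y := by
    have := h.c0
    apply div_pos <;> linarith
  have hy1 : y < 1 := by
    rw [hy, div_lt_one hR0]; linarith
  set G : ℝ → ℝ := fun x => R ^ 2 + 1 + 2 * Real.cos (2 * θ + 2 * x) -
    2 * R * Real.cos (2 * θ + 2 / R * x) - 2 * R * Real.cos (2 * y * x) with hG
  have hG0 : G 0 = 0 := by
    simp only [hG, mul_zero, add_zero, Real.cos_zero, mul_one]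
    have h1 := h.hR
    have h2 : Real.cos (2 * θ) = (R - 1) / 2 := by linarith
    rw [h2]; ring
  have hder : ∀ x, HasDerivAt G (8 * Real.sin (y * x) *
      ((R - 1) * Real.cos (y * x) - Real.cos (2 * θ + (1 + 1 / R) * x))) x := by
    intro x
    have d1 : HasDerivAt (fun x : ℝ => Real.cos (2 * θ + 2 * x))
        (-Real.sin (2 * θ + 2 * x) * 2) x := by
      have := ((hasDerivAt_id x).const_mul 2).const_add (2 * θ)
      simpa using this.cos
    have d2 : HasDerivAt (fun x : ℝ => Real.cos (2 * θ + 2 / R * x))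
        (-Real.sin (2 * θ + 2 / R * x) * (2 / R)) x := by
      have := ((hasDerivAt_id x).const_mul (2 / R)).const_add (2 * θ)
      simpa using this.cos
    have d3 : HasDerivAt (fun x : ℝ => Real.cos (2 * y * x))
        (-Real.sin (2 * y * x) * (2 * y)) x := by
      have := ((hasDerivAt_id x).const_mul (2 * y))
      simpa using this.cos
    have d4 := (((d1.const_mul 2).const_add (R ^ 2 + 1)).sub (d2.const_mul (2 * R))).sub
      (d3.const_mul (2 * R))
    have d5 : HasDerivAt G (2 * (-Real.sin (2 * θ + 2 * x) * 2) -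
        2 * R * (-Real.sin (2 * θ + 2 / R * x) * (2 / R)) -
        2 * R * (-Real.sin (2 * y * x) * (2 * y))) x := d4
    refine d5.congr_deriv ?_
    have e1 : 2 * θ + 2 * x = (2 * θ + (1 + 1 / R) * x) + y * x := by
      rw [hy]; field_simp; ring
    have e2 : 2 * θ + 2 / R * x = (2 * θ + (1 + 1 / R) * x) - y * x := by
      rw [hy]; field_simp; ring
    have e3 : 2 * y * x = y * x + y * x := by ring
    rw [e1, e2, e3, Real.sin_add, Real.sin_sub, Real.sin_add (y * x)]
    have e4 : R * y = R - 1 := by rw [hy]; field_simp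
    have e5 : R * (2 / R) = 2 := by field_simp
    linear_combination (8 * Real.sin (y * x) * Real.cos (y * x)) * e4 +
      (2 * (Real.sin (2 * θ + (1 + 1 / R) * x) * Real.cos (y * x) -
        Real.cos (2 * θ + (1 + 1 / R) * x) * Real.sin (y * x))) * e5
  have hcont : Continuous G := by
    simp only [hG]; fun_prop
  have hbr : ∀ x, |x| ≤ θ → 0 ≤ (R - 1) * Real.cos (y * x) -
      Real.cos (2 * θ + (1 + 1 / R) * x) := by
    intro x hx
    have h1 : Real.cos θ ≤ Real.cos (y * x) := by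
      rw [← Real.cos_abs (y * x)]
      apply Real.cos_le_cos_of_nonneg_of_le_pi (abs_nonneg _) (by linarith)
      rw [abs_mul, abs_of_pos hy0]
      nlinarith [abs_nonneg x]
    have h2 := Real.cos_le_one (2 * θ + (1 + 1 / R) * x)
    have h3 : (R - 1) * Real.cos θ ≤ (R - 1) * Real.cos (y * x) := by
      have := h.c0
      apply mul_le_mul_of_nonneg_left h1 (by linarith)
    linarith [h.c1]
  obtain ⟨hx1, hx2⟩ := abs_le.1 hx
  have hsin : ∀ x, 0 ≤ x → x ≤ θ → 0 ≤ Real.sin (y * x) := by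
    intro x h0 h1
    apply Real.sin_nonneg_of_nonneg_of_le_pi (by positivity)
    nlinarith
  have goal : 0 ≤ G x := by
    rw [← hG0]
    rcases le_total 0 x with h0 | h0
    · have hmono : MonotoneOn G (Icc 0 θ) := by
        apply monotoneOn_of_deriv_nonneg (convex_Icc _ _) hcont.continuousOn
        · intro z _; exact (hder z).differentiableAt.differentiableWithinAt
        · intro z hz
          rw [interior_Icc] at hz
          rw [(hder z).deriv]
          have h3 := hsin z hz.1.le hz.2.le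
          have h4 := hbr z (by rw [abs_of_pos hz.1]; exact hz.2.le)
          positivity
      exact hmono ⟨le_rfl, hθ0.le⟩ ⟨h0, hx2⟩ h0
    · have hanti : AntitoneOn G (Icc (-θ) 0) := by
        apply antitoneOn_of_deriv_nonpos (convex_Icc _ _) hcont.continuousOn
        · intro z _; exact (hder z).differentiableAt.differentiableWithinAt
        · intro z hz
          rw [interior_Icc] at hz
          rw [(hder z).deriv]
          have h3 := hsin (-z) (by linarith [hz.2]) (by linarith [hz.1])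
          have h4 := hbr z (by rw [abs_of_neg hz.2]; linarith [hz.1])
          have h5 : Real.sin (y * z) ≤ 0 := by
            have : y * -z = -(y * z) := by ring
            rw [this, Real.sin_neg] at h3
            linarith
          have h6 : 8 * Real.sin (y * z) ≤ 0 := by linarith
          exact mul_nonpos_of_nonpos_of_nonneg h6 h4
      exact hanti ⟨hx1, h0⟩ ⟨by linarith, le_rfl⟩ h0
  exact goal

/-- The trade-off between the outer and the inner arc of one disc. -/
lemma tradeoff {m : ℕ} {θ R : ℝ} (h : Cond m θ R) {R' : ℝ} (hR' : R < R') {d : ℝ} (hd : 0 < d) :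
    R * Real.arccos ((R' ^ 2 + d ^ 2 - 1) / (2 * R' * d)) +
      (R - 2) * Real.arccos ((1 ^ 2 + d ^ 2 - 1) / (2 * 1 * d)) < 2 * (R - 1) * θ := by
  have hpi := Real.pi_pos
  have h0 := h.c0
  have hR0 : 0 < R := by linarith
  have hR'0 : 0 < R' := by linarith
  have hθ0 := h.pos
  have hθ1 := h.small
  have e1 : ((1 : ℝ) ^ 2 + d ^ 2 - 1) / (2 * 1 * d) = d / 2 := by field_simp; ring
  rw [e1]
  set g' := (R' ^ 2 + d ^ 2 - 1) / (2 * R' * d) with hg'
  have hg'0 : 0 < g' := by
    apply div_pos _ (by positivity)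
    nlinarith
  rcases le_or_gt 2 d with h2 | h2
  · -- the disc misses the inner circle
    have hb : Real.arccos (d / 2) = 0 := Real.arccos_of_one_le (by linarith)
    rw [hb, mul_zero, add_zero]
    set τ := 2 * (R - 1) * θ / R with hτ
    have hτ0 : 0 < τ := by
      have : 0 < R - 1 := by linarith
      positivity
    have hτ1 : τ < Real.pi / 2 := by
      rw [hτ, div_lt_iff₀ hR0]
      nlinarith
    have hcτ : 0 ≤ Real.cos τ := Real.cos_nonneg_of_mem_Icc ⟨by linarith, hτ1.le⟩
    have h3 : Real.cos τ < g' := by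
      have h4 : Real.cos τ ^ 2 ≤ 1 - (1 / R) ^ 2 := by
        have h5 := Real.sin_sq_add_cos_sq τ
        have h6 : (1 / R) ^ 2 ≤ Real.sin τ ^ 2 := by
          have h7 := h.c3
          have h8 : (0 : ℝ) ≤ 1 / R := by positivity
          gcongr
        linarith
      have h5 : 1 - (1 / R') ^ 2 ≤ g' ^ 2 := by
        have hgg : g' ^ 2 = (R' ^ 2 + d ^ 2 - 1) ^ 2 / (2 * R' * d) ^ 2 := by
          rw [hg']; exact div_pow _ _ _
        rw [hgg, le_div_iff₀ (by positivity)]
        have : (1 - (1 / R') ^ 2) * (2 * R' * d) ^ 2 = 4 * d ^ 2 * (R' ^ 2 - 1) := by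
          field_simp; ring
        rw [this]
        nlinarith [sq_nonneg (R' ^ 2 - 1 - d ^ 2)]
      have h6 : (1 / R') ^ 2 < (1 / R) ^ 2 := by
        have h7 : 1 / R' < 1 / R := one_div_lt_one_div_of_lt hR0 hR'
        have h8 : (0 : ℝ) ≤ 1 / R' := by positivity
        gcongr
      have h7 : Real.cos τ ^ 2 < g' ^ 2 := by linarith
      exact lt_of_pow_lt_pow_left₀ 2 hg'0.le h7
    have h4 : Real.arccos g' < τ := by
      by_cases hg1 : 1 ≤ g'
      · rw [Real.arccos_of_one_le hg1]; exact hτ0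
      · push Not at hg1
        rw [← Real.arccos_cos hτ0.le (by linarith)]
        exact Real.arccos_lt_arccos (by linarith [Real.neg_one_le_cos τ]) h3 hg1.le
    have h5 : R * τ = 2 * (R - 1) * θ := by rw [hτ]; field_simp
    nlinarith
  · set β := Real.arccos (d / 2) with hβ
    have hcβ : Real.cos β = d / 2 := Real.cos_arccos (by linarith) (by linarith)
    have hβ0 : 0 ≤ β := Real.arccos_nonneg _
    have hβ1 : β ≤ Real.pi / 2 := by
      rw [hβ, Real.arccos_le_pi_div_two]; linarith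
    by_cases hg1 : 1 ≤ g'
    · rw [Real.arccos_of_one_le hg1, mul_zero, zero_add]
      calc (R - 2) * β ≤ (R - 2) * (Real.pi / 2) := by
            apply mul_le_mul_of_nonneg_left hβ1 (by linarith)
        _ < _ := h.c2
    · push Not at hg1
      -- `R - 1 < d`
      have h3 : R' - 1 < d := by
        rw [hg', div_lt_one (by positivity)] at hg1
        nlinarith
      have h4 : R - 1 < d := by linarith
      have h5 : β < 2 * θ := by
        have h6 : Real.cos (2 * θ) < Real.cos β := by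
          rw [hcβ]
          have := h.hR
          linarith
        by_contra hcon
        push Not at hcon
        have := Real.cos_le_cos_of_nonneg_of_le_pi (by linarith : 0 ≤ 2 * θ) (by linarith) hcon
        linarith
      set κ := (R - 2) / R with hκ
      have hκ0 : 0 < κ := by
        apply div_pos _ hR0; linarith
      have hκ1 : κ < 1 := by
        rw [hκ, div_lt_one hR0]; linarith
      set X := β - θ with hX
      have hXθ : |X| ≤ θ := by
        rw [abs_le, hX]; constructor <;> linarith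
      set A := θ - κ * X with hA
      have hκX : |κ * X| < θ := by
        rw [abs_mul, abs_of_pos hκ0]
        nlinarith [abs_nonneg X]
      obtain ⟨k1, k2⟩ := abs_lt.1 hκX
      have hA0 : 0 < A := by rw [hA]; linarith
      have hA1 : A < Real.pi := by rw [hA]; linarith
      have hGn := G_nonneg h hXθ
      have h6 : Real.cos A ≤ (R ^ 2 + d ^ 2 - 1) / (2 * R * d) := by
        rw [le_div_iff₀ (by positivity)]
        have h7 : d = 2 * Real.cos (θ + X) := by
          have : θ + X = β := by rw [hX]; ring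
          rw [this, hcβ]; ring
        have h8 : Real.cos (2 * θ + 2 * X) = 2 * Real.cos (θ + X) ^ 2 - 1 := by
          rw [← Real.cos_two_mul]; congr 1; ring
        have h9 : 2 * (Real.cos A * Real.cos (θ + X)) =
            Real.cos (2 * θ + 2 / R * X) + Real.cos (2 * ((R - 1) / R) * X) := by
          have e2 : 2 * θ + 2 / R * X = (θ + X) + A := by
            rw [hA, hκ]; field_simp; ring
          have e3 : 2 * ((R - 1) / R) * X = (θ + X) - A := by
            rw [hA, hκ]; field_simp; ring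
          rw [e2, e3, Real.cos_add (θ + X) A, Real.cos_sub (θ + X) A]; ring
        rw [h8] at hGn
        rw [h7]
        nlinarith
      have h7 : (R ^ 2 + d ^ 2 - 1) / (2 * R * d) < g' := by
        rw [hg', div_lt_div_iff₀ (by positivity) (by positivity)]
        have h8 : d ^ 2 - 1 < R * R' := by nlinarith
        have h9 : 0 < (R' - R) * (R * R' - (d ^ 2 - 1)) := by
          apply mul_pos <;> linarith
        nlinarith
      have h8 : Real.arccos g' < A := by
        rw [← Real.arccos_cos hA0.le hA1.le]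
        exact Real.arccos_lt_arccos (by linarith [Real.neg_one_le_cos A]) (by linarith) hg1.le
      have h9 : R * A + (R - 2) * β = 2 * (R - 1) * θ := by
        rw [hA, hκ, hX]; field_simp; ring
      nlinarith

/-- The upper bound. -/
lemma rho_le_cos {m : ℕ} (hm : 0 < m) {θ R : ℝ} (h : Cond m θ R) : rho m ≤ R := by
  have hpi := Real.pi_pos
  apply csSup_le ⟨1, ring_one m⟩
  intro R' hring
  by_contra hcon
  push Not at hcon
  have h0 := h.c0
  obtain ⟨p0, hp0⟩ := (ring_iff m R').1 hring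
  -- replace centres at the origin
  set p : Fin m → ℂ := fun i => if p0 i = 0 then 1 else p0 i with hp
  have hpne : ∀ i, p i ≠ 0 := by
    intro i
    by_cases h1 : p0 i = 0
    · simp [hp, h1]
    · simp [hp, h1]
  have hcov : ∀ z : ℂ, 1 < ‖z‖ → ‖z‖ ≤ R' → ∃ i, ‖z - p i‖ ≤ 1 := by
    intro z h1 h2
    rcases hp0 z h2 with h3 | ⟨i, hi⟩
    · linarith
    · refine ⟨i, ?_⟩
      have h4 : p0 i ≠ 0 := by
        intro h5
        rw [h5, sub_zero] at hi
        linarith
      simp only [hp, h4, if_false]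
      exact hi
  have hnorm : ∀ (s θ' : ℝ), 0 < s → ‖(s : ℂ) * Complex.exp (θ' * Complex.I)‖ = s := by
    intro s θ' hs
    rw [norm_mul, Complex.norm_exp_ofReal_mul_I, mul_one, Complex.norm_real, Real.norm_eq_abs,
      abs_of_pos hs]
  have hout := arcs (s := R') (by linarith) hpne (fun θ' => hcov _
    (by rw [hnorm _ _ (by linarith)]; linarith) (by rw [hnorm _ _ (by linarith)]))
  have hin := arcs (s := 1) one_pos hpne (by
    intro θ'
    have hclosed : IsClosed (⋃ i, closedBall (p i) 1) :=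
      isClosed_iUnion_of_finite (fun i => isClosed_closedBall)
    have hlim : Filter.Tendsto (fun n : ℕ =>
        ((1 + 1 / ((n : ℝ) + 1) : ℝ) : ℂ) * Complex.exp (θ' * Complex.I)) Filter.atTop
        (nhds (((1 : ℝ) : ℂ) * Complex.exp (θ' * Complex.I))) := by
      apply Filter.Tendsto.mul_const
      have h1 : Filter.Tendsto (fun n : ℕ => (1 + 1 / ((n : ℝ) + 1) : ℝ)) Filter.atTop
          (nhds 1) := by
        have := (tendsto_one_div_add_atTop_nhds_zero_nat (𝕜 := ℝ)).const_add 1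
        simpa using this
      exact (Complex.continuous_ofReal.tendsto _).comp h1
    have hmem : ((1 : ℝ) : ℂ) * Complex.exp (θ' * Complex.I) ∈ ⋃ i, closedBall (p i) 1 := by
      apply hclosed.mem_of_tendsto hlim
      apply Filter.Eventually.of_forall
      intro n
      have hn : (0 : ℝ) < 1 / ((n : ℝ) + 1) := by positivity
      have hn' : (1 : ℝ) / ((n : ℝ) + 1) ≤ 1 := by
        rw [div_le_one (by positivity)]
        have : (0 : ℝ) ≤ n := Nat.cast_nonneg n
        linarith
      obtain ⟨i, hi⟩ := hcov (((1 + 1 / ((n : ℝ) + 1) : ℝ) : ℂ) * Complex.exp (θ' * Complex.I))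
        (by rw [hnorm _ _ (by linarith)]; linarith)
        (by rw [hnorm _ _ (by linarith)]; linarith)
      rw [mem_iUnion]
      exact ⟨i, by rw [mem_closedBall, dist_eq_norm]; exact hi⟩
    obtain ⟨i, hi⟩ := mem_iUnion.1 hmem
    exact ⟨i, by rw [mem_closedBall, dist_eq_norm] at hi; exact hi⟩)
  have hsum : ∑ i : Fin m, (R * Real.arccos ((R' ^ 2 + ‖p i‖ ^ 2 - 1) / (2 * R' * ‖p i‖)) +
      (R - 2) * Real.arccos ((1 ^ 2 + ‖p i‖ ^ 2 - 1) / (2 * 1 * ‖p i‖))) <
      ∑ _i : Fin m, 2 * (R - 1) * θ := by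
    apply Finset.sum_lt_sum_of_nonempty
    · exact ⟨⟨0, hm⟩, Finset.mem_univ _⟩
    · intro i _
      exact tradeoff h hcon (norm_pos_iff.2 (hpne i))
  rw [Finset.sum_add_distrib, ← Finset.mul_sum, ← Finset.mul_sum, Finset.sum_const,
    Finset.card_univ, Fintype.card_fin, nsmul_eq_mul] at hsum
  have hmθ : (m : ℝ) * (2 * (R - 1) * θ) = 2 * (R - 1) * Real.pi := by
    have hm' : (m : ℝ) ≠ 0 := by exact_mod_cast hm.ne'
    rw [h.hθ]; field_simp
  rw [hmθ] at hsum
  have k1 : R * Real.pi ≤ R * ∑ i, Real.arccos ((R' ^ 2 + ‖p i‖ ^ 2 - 1) / (2 * R' * ‖p i‖)) :=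
    mul_le_mul_of_nonneg_left hout (by linarith)
  have k2 : (R - 2) * Real.pi ≤ (R - 2) *
      ∑ i, Real.arccos ((1 ^ 2 + ‖p i‖ ^ 2 - 1) / (2 * 1 * ‖p i‖)) :=
    mul_le_mul_of_nonneg_left hin (by linarith)
  linarith

end Pool.Agent.R231.KC
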