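import Pool.Agent.R231.KC.Nine

/-!
The values of `rho m` for `m = 7, 8, 9`.
-/

namespace Pool.Agent.R231.KC

lemma sin_lower {a t : ℝ} (h0 : 0 < a) (h1 : a ≤ t) (h2 : t ≤ 1) :
    a - a ^ 3 / 4 ≤ Real.sin t := by
  have h3 := Real.sin_gt_sub_cube (by linarith : 0 < t)
  have h3' : 0 ≤ t ^ 3 := by
    have : 0 < t := by linarith
    positivity
  have h4 : a - a ^ 3 / 4 ≤ t - t ^ 3 / 4 := by
    have h5 : 0 ≤ (t - a) * (4 - (t ^ 2 + t * a + a ^ 2)) := by
      apply mul_nonneg (by linarith)
      nlinarith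
    nlinarith
  linarith

lemma cond_c3 {θ R l a r : ℝ} (hl : 0 < l) (hθl : l ≤ θ) (hθu : 2 * θ ≤ 1) (hr : 2 < r)
    (hRl : r ≤ R) (ha : 0 < a) (h1 : 2 * l ≤ (2 * l - a) * r) (h1' : a < 2 * l)
    (h2 : 1 / r ≤ a - a ^ 3 / 4) : 1 / R ≤ Real.sin (2 * (R - 1) * θ / R) := by
  have hR0 : 0 < R := by linarith
  have h3 : a ≤ 2 * (R - 1) * θ / R := by
    rw [le_div_iff₀ hR0]
    have h4 : 2 * (R - 1) * l ≤ 2 * (R - 1) * θ := by
      apply mul_le_mul_of_nonneg_left hθl; linarith
    have h5 : (2 * l - a) * r ≤ (2 * l - a) * R := by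
      apply mul_le_mul_of_nonneg_left hRl; linarith
    linarith
  have h4 : 2 * (R - 1) * θ / R ≤ 1 := by
    rw [div_le_one hR0]
    nlinarith
  have h5 : 1 / R ≤ 1 / r := one_div_le_one_div_of_le (by linarith) hRl
  linarith [sin_lower ha h3 h4]

theorem rho_seven : rho 7 = 1 + 2 * Real.cos (2 * (Real.pi / 7)) := by
  apply le_antisymm
  · have p1 := Real.pi_gt_d4
    have p2 := Real.pi_lt_d4
    have hl : (0.4487 : ℝ) ≤ Real.pi / 7 := by linarith
    have hu : Real.pi / 7 ≤ 0.4488 := by linarith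
    have hc := Real.one_sub_sq_div_two_le_cos (x := 2 * (Real.pi / 7))
    have hc' := Real.one_sub_sq_div_two_le_cos (x := Real.pi / 7)
    have hsq : (2 * (Real.pi / 7)) ^ 2 ≤ 0.8976 ^ 2 := by
      apply pow_le_pow_left₀ (by positivity); linarith
    have hsq' : (Real.pi / 7) ^ 2 ≤ 0.4488 ^ 2 := by
      apply pow_le_pow_left₀ (by positivity) hu
    have hcl : (0.597 : ℝ) ≤ Real.cos (2 * (Real.pi / 7)) := by
      norm_num at hsq
      linarith
    have hcl' : (0.899 : ℝ) ≤ Real.cos (Real.pi / 7) := by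
      norm_num at hsq'
      linarith
    have hc1 := Real.cos_le_one (2 * (Real.pi / 7))
    refine rho_le_cos (m := 7) (θ := Real.pi / 7) (by norm_num)
      ⟨by norm_num, rfl, by positivity, by linarith, by linarith, ?_, ?_, ?_⟩
    · have : (1.194 : ℝ) * 0.899 ≤
          (1 + 2 * Real.cos (2 * (Real.pi / 7)) - 1) * Real.cos (Real.pi / 7) := by
        apply mul_le_mul <;> linarith
      norm_num at this
      linarith
    · have : 0 < Real.pi := Real.pi_pos
      nlinarith
    · exact cond_c3 (l := 0.4487) (a := 0.488) (r := 2.194) (by norm_num) hl (by linarith)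
        (by norm_num) (by linarith) (by norm_num) (by norm_num) (by norm_num) (by norm_num)
  · exact_mod_cast rho_ge_cos (m := 7) (by norm_num)

theorem rho_eight : rho 8 = 1 + Real.sqrt 2 := by
  have e : Real.cos (2 * (Real.pi / 8)) = Real.sqrt 2 / 2 := by
    rw [← Real.cos_pi_div_four]; congr 1; ring
  have e' : 1 + 2 * Real.cos (2 * (Real.pi / 8)) = 1 + Real.sqrt 2 := by
    rw [e]; ring
  rw [← e']
  apply le_antisymm
  · have p1 := Real.pi_gt_d4
    have p2 := Real.pi_lt_d4
    have hl : (0.3926 : ℝ) ≤ Real.pi / 8 := by linarith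
    have hu : Real.pi / 8 ≤ 0.3928 := by linarith
    have hc' := Real.one_sub_sq_div_two_le_cos (x := Real.pi / 8)
    have hsq' : (Real.pi / 8) ^ 2 ≤ 0.3928 ^ 2 := by
      apply pow_le_pow_left₀ (by positivity) hu
    have s2 : (1.4142 : ℝ) ≤ Real.sqrt 2 := by
      apply Real.le_sqrt_of_sq_le; norm_num
    have s2' : Real.sqrt 2 ≤ 1.4143 := by
      rw [Real.sqrt_le_left (by norm_num)]; norm_num
    have hcl' : (0.92 : ℝ) ≤ Real.cos (Real.pi / 8) := by
      norm_num at hsq'
      linarith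
    refine rho_le_cos (m := 8) (θ := Real.pi / 8) (by norm_num)
      ⟨by norm_num, rfl, by positivity, by linarith, by linarith, ?_, ?_, ?_⟩
    · have : (1.4142 : ℝ) * 0.92 ≤
          (1 + 2 * Real.cos (2 * (Real.pi / 8)) - 1) * Real.cos (Real.pi / 8) := by
        apply mul_le_mul <;> linarith
      have hh : (1 : ℝ) ≤ 1.4142 * 0.92 := by norm_num
      linarith
    · have : 0 < Real.pi := Real.pi_pos
      rw [e']
      nlinarith
    · exact cond_c3 (l := 0.3926) (a := 0.459) (r := 2.414) (by norm_num) hl (by linarith)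
        (by norm_num) (by linarith) (by norm_num) (by norm_num) (by norm_num) (by norm_num)
  · exact_mod_cast rho_ge_cos (m := 8) (by norm_num)

theorem rho_nine : rho 9 = 1 + 2 * Real.cos (2 * (Real.pi / 9)) := by
  apply le_antisymm
  · have p1 := Real.pi_gt_d4
    have p2 := Real.pi_lt_d4
    have hl : (0.34905 : ℝ) ≤ Real.pi / 9 := by linarith
    have hu : Real.pi / 9 ≤ 0.34907 := by linarith
    have hc := Real.one_sub_sq_div_two_le_cos (x := 2 * (Real.pi / 9))
    have hc' := Real.one_sub_sq_div_two_le_cos (x := Real.pi / 9)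
    have hsq : (2 * (Real.pi / 9)) ^ 2 ≤ 0.69814 ^ 2 := by
      apply pow_le_pow_left₀ (by positivity); linarith
    have hsq' : (Real.pi / 9) ^ 2 ≤ 0.34907 ^ 2 := by
      apply pow_le_pow_left₀ (by positivity) hu
    have hcl : (0.7563 : ℝ) ≤ Real.cos (2 * (Real.pi / 9)) := by
      norm_num at hsq
      linarith
    have hcl' : (0.93 : ℝ) ≤ Real.cos (Real.pi / 9) := by
      norm_num at hsq'
      linarith
    have hcu : Real.cos (2 * (Real.pi / 9)) ≤ 0.8 := by
      have hb := Real.cos_bound (x := 2 * (Real.pi / 9)) (by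
        rw [abs_of_pos (by positivity)]; linarith)
      have hb' := (abs_le.1 hb).2
      rw [abs_of_pos (show (0 : ℝ) < 2 * (Real.pi / 9) by positivity)] at hb'
      have hlo : (0.6981 : ℝ) ^ 2 ≤ (2 * (Real.pi / 9)) ^ 2 := by
        apply pow_le_pow_left₀ (by norm_num); linarith
      have hhi : (2 * (Real.pi / 9)) ^ 4 ≤ 0.69814 ^ 4 := by
        apply pow_le_pow_left₀ (by positivity); linarith
      norm_num at hlo hhi
      linarith
    have hc1 := Real.cos_le_one (2 * (Real.pi / 9))
    refine rho_le_cos (m := 9) (θ := Real.pi / 9) (by norm_num)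
      ⟨by norm_num, rfl, by positivity, by linarith, by linarith, ?_, ?_, ?_⟩
    · have : (1.5 : ℝ) * 0.93 ≤
          (1 + 2 * Real.cos (2 * (Real.pi / 9)) - 1) * Real.cos (Real.pi / 9) := by
        apply mul_le_mul <;> linarith
      norm_num at this
      linarith
    · have : 0 < Real.pi := Real.pi_pos
      nlinarith
    · exact cond_c3 (l := 0.34905) (a := 0.42) (r := 2.5126) (by norm_num) hl (by linarith)
        (by norm_num) (by linarith) (by norm_num) (by norm_num) (by norm_num) (by norm_num)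
  · exact_mod_cast rho_ge_cos (m := 9) (by norm_num)

end Pool.Agent.R231.KC
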